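import Pool.Agent.PD4.Geo.Per
import Pool.Agent.PD4.Ix.ChSym
import Pool.Agent.H95.PD.Rank
import Pool.Agent.PD4.Cx0
import Pool.Agent.PD4.Loc.Model
import Pool.Agent.PD4.Loc.Oct

/-!
# Project PD, geometry: core data and the explicit octonionic model on the torus

`CoreData ι`: a Real bundle `P` of rank `11` on the torus `T⁸` with a map `F : ℂ⁸ → P` which is
injective off the lattice points and vanishes to first order at the origin, the linear part being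
octonionic.  Output (file `Out.lean`): `P = PE + PJ` with `PE` Real of rank `3`,
`evenCh 4 PJ = ±1`, `evenCh 2 PJ = 0` on all coordinate subtori.
-/

open MeasureTheory Matrix
open scoped ContDiff

namespace Pool.Agent.PD4

open Loc

/-- the matrix of `v ↦ (uᵀ Q v, Im (conj (g u) · g v))` -/
noncomputable def octM (Q g : Matrix (Fin 8) (Fin 8) ℝ) (u : Fin 8 → ℝ) :
    Matrix (Fin 8) (Fin 8) ℝ :=
  fun c l => if c = 0 then (u ᵥ* Q) l else (octFrame.lin (g *ᵥ u) * g) c l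

/-- the geometric core data -/
structure CoreData (ι : Type*) [Fintype ι] [DecidableEq ι] where
  P : Matrix ι ι (Sm 8)
  idem : P * P = P
  herm : Pᴴ = P
  real : MReal P
  tr : ∀ x, (mev x P).trace = 11
  F : Matrix ι (Fin 8) (Sm 8)
  Freal : MReal F
  PF : P * F = F
  inj : ∀ x : Fin 8 → ℝ, (∀ m : Fin 8 → ℤ, x ≠ fun i => (m i : ℝ)) →
    ∀ v : Fin 8 → ℂ, mev x F *ᵥ v = 0 → v = 0
  F0 : mev 0 F = 0
  lam : Matrix (Fin 8) ι ℝ
  Q : Matrix (Fin 8) (Fin 8) ℝ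
  hQ : ∀ u : Fin 8 → ℝ, u ≠ 0 → 0 < u ⬝ᵥ (Q *ᵥ u)
  g : Matrix (Fin 8) (Fin 8) ℝ
  hg : g.det ≠ 0
  first : ∀ j, cx lam * mev 0 (F.map (pD j)) =
    (2 * Real.pi * Complex.I : ℂ) • cx (octM Q g (Pi.single j 1))

/-! ### the model idempotent -/

/-- profile functions -/
structure Profile (p r : ℝ → ℝ) (a b : ℝ) : Prop where
  ha : 0 < a
  hab : a < b
  ps : ContDiff ℝ ∞ p
  rs : ContDiff ℝ ∞ r
  norm : ∀ t, t * r t ^ 2 = p t * (1 - p t)
  plo : ∀ t, t ≤ a → p t = 0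
  phi : ∀ t, b ≤ t → p t = 1
  rlo : ∀ t, t ≤ a → r t = 0
  rhi : ∀ t, b ≤ t → r t = 0
  rpos : ∀ t, 0 ≤ r t
  pos : ∀ t, 0 ≤ p t
  le1 : ∀ t, p t ≤ 1

lemma contDiff_mulVec' (g : Matrix (Fin 8) (Fin 8) ℝ) :
    ContDiff ℝ ∞ fun x : Fin 8 → ℝ => g *ᵥ x := by
  refine contDiff_pi.2 fun i => ?_
  simp only [mulVec, dotProduct]
  exact ContDiff.sum fun j _ => contDiff_const.mul (contDiff_apply ℝ ℝ j)

lemma contDiff_sq (g : Matrix (Fin 8) (Fin 8) ℝ) :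
    ContDiff ℝ ∞ fun x : Fin 8 → ℝ => Loc.sq (g *ᵥ x) := by
  simp only [Loc.sq]
  exact ContDiff.sum fun j _ => ((contDiff_pi.1 (contDiff_mulVec' g)) j).pow 2

/-- `g` makes the cube big: `Loc.sq (g x) < b` implies `|x_i| ≤ r` -/
def Big (g : Matrix (Fin 8) (Fin 8) ℝ) (b r : ℝ) : Prop :=
  ∀ x : Fin 8 → ℝ, (∃ i, r < |x i|) → b < Loc.sq (g *ᵥ x)

/-- periodisation data of a function of `Loc.sq (g x)` which is constant for large arguments -/
noncomputable def radData {φ : ℝ → ℝ} (hφ : ContDiff ℝ ∞ φ) {b c : ℝ} (hc : ∀ t, b ≤ t → φ t = c)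
    {g : Matrix (Fin 8) (Fin 8) ℝ} {r : ℝ} (hr : r < 1 / 2) (hb : Big g b r) : PerData 8 where
  F x := ((φ (Loc.sq (g *ᵥ x)) : ℝ) : ℂ)
  smooth := Complex.ofRealCLM.contDiff.comp (hφ.comp (contDiff_sq g))
  c := (c : ℂ)
  r := r
  hr := hr
  out := fun x hx => by rw [hc _ (hb x hx).le]

/-- the periodic function `φ (|g (x - round x)|²)` -/
noncomputable def rad {φ : ℝ → ℝ} (hφ : ContDiff ℝ ∞ φ) {b c : ℝ} (hc : ∀ t, b ≤ t → φ t = c)
    {g : Matrix (Fin 8) (Fin 8) ℝ} {r : ℝ} (hr : r < 1 / 2) (hb : Big g b r) : Sm 8 :=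
  per (radData hφ hc hr hb)

lemma rad_apply {φ : ℝ → ℝ} (hφ : ContDiff ℝ ∞ φ) {b c : ℝ} (hc : ∀ t, b ≤ t → φ t = c)
    {g : Matrix (Fin 8) (Fin 8) ℝ} {r : ℝ} (hr : r < 1 / 2) (hb : Big g b r) (x : Fin 8 → ℝ) :
    (rad hφ hc hr hb).1 x = ((φ (Loc.sq (g *ᵥ cen x)) : ℝ) : ℂ) := rfl

/-- periodisation data of an entry of the model -/
noncomputable def modelData {p r : ℝ → ℝ} {a b : ℝ}
    (hp : Profile p r a b) {g : Matrix (Fin 8) (Fin 8) ℝ} {ρ : ℝ} (hρ : ρ < 1 / 2)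
    (hb : Big g b ρ) (i j : Fin 8 ⊕ Fin 8) : PerData 8 where
  F x := e0 octFrame p r (g *ᵥ x) i j
  smooth := by
    have h1 := contDiff_mulVec' g
    have h3 : ContDiff ℝ ∞ fun x : Fin 8 → ℝ => p (Loc.sq (g *ᵥ x)) := hp.ps.comp (contDiff_sq g)
    have h4 : ContDiff ℝ ∞ fun x : Fin 8 → ℝ => r (Loc.sq (g *ᵥ x)) := hp.rs.comp (contDiff_sq g)
    have h5 : ∀ k l, ContDiff ℝ ∞ fun x : Fin 8 → ℝ => octFrame.lin (g *ᵥ x) k l := by
      intro k l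
      simp only [OctFrame.lin, Matrix.sum_apply, Matrix.smul_apply, smul_eq_mul]
      exact ContDiff.sum fun a _ => ((contDiff_pi.1 h1) a).mul contDiff_const
    have key : ContDiff ℝ ∞ fun x : Fin 8 → ℝ => (fromBlocks
        (p (Loc.sq (g *ᵥ x)) • (1 : Matrix (Fin 8) (Fin 8) ℝ))
        (r (Loc.sq (g *ᵥ x)) • (octFrame.lin (g *ᵥ x))ᵀ)
        (r (Loc.sq (g *ᵥ x)) • octFrame.lin (g *ᵥ x))
        ((1 - p (Loc.sq (g *ᵥ x))) • (1 : Matrix (Fin 8) (Fin 8) ℝ))) i j := by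
      rcases i with i | i <;> rcases j with j | j <;>
        simp only [fromBlocks_apply₁₁, fromBlocks_apply₁₂, fromBlocks_apply₂₁,
          fromBlocks_apply₂₂, Matrix.smul_apply, smul_eq_mul, Matrix.transpose_apply]
      · exact h3.mul contDiff_const
      · exact h4.mul (h5 _ _)
      · exact h4.mul (h5 _ _)
      · exact (contDiff_const.sub h3).mul contDiff_const
    exact Complex.ofRealCLM.contDiff.comp key
  c := ((fromBlocks (1 : Matrix (Fin 8) (Fin 8) ℝ) 0 0 (0 : Matrix (Fin 8) (Fin 8) ℝ) i j : ℝ) : ℂ)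
  r := ρ
  hr := hρ
  out := by
    intro x hx
    have h1 := (hb x hx).le
    have h2 := hp.phi _ h1
    have h3 := hp.rhi _ h1
    rcases i with i | i <;> rcases j with j | j <;>
      simp [e0, h2, h3]

/-- the model idempotent on the torus -/
noncomputable def modelSm {p r : ℝ → ℝ} {a b : ℝ}
    (hp : Profile p r a b) {g : Matrix (Fin 8) (Fin 8) ℝ} {ρ : ℝ} (hρ : ρ < 1 / 2)
    (hb : Big g b ρ) : Matrix (Fin 8 ⊕ Fin 8) (Fin 8 ⊕ Fin 8) (Sm 8) :=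
  fun i j => per (modelData hp hρ hb i j)

lemma mev_modelSm {p r : ℝ → ℝ} {a b : ℝ}
    (hp : Profile p r a b) {g : Matrix (Fin 8) (Fin 8) ℝ} {ρ : ℝ} (hρ : ρ < 1 / 2)
    (hb : Big g b ρ) (x : Fin 8 → ℝ) :
    mev x (modelSm hp hρ hb) = e0 octFrame p r (g *ᵥ cen x) := rfl

lemma sq_nonneg' (y : Fin 8 → ℝ) : 0 ≤ Loc.sq y := Finset.sum_nonneg fun i _ => sq_nonneg _

/-- the model idempotent has `ch₄ = ± 1` -/
lemma evenCh_modelSm {p r : ℝ → ℝ} {a b : ℝ}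
    (hp : Profile p r a b) {g : Matrix (Fin 8) (Fin 8) ℝ} (hg : g.det ≠ 0) {ρ : ℝ}
    (hρ : ρ < 1 / 2) (hb : Big g b ρ) :
    evenCh 4 (modelSm hp hρ hb) = 1 ∨ evenCh 4 (modelSm hp hρ hb) = -1 := by
  refine evenCh_model octFrame g hg p r hp.ps hp.rs hp.norm (hp.plo 0 hp.ha.le) b
    (hp.ha.trans hp.hab) hp.phi ?_ _ ?_
  · intro x hx i
    by_contra hc
    push Not at hc
    exact absurd (hb x ⟨i, lt_of_lt_of_le hρ hc⟩) (not_lt.mpr hx)
  · intro x hx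
    rw [mev_modelSm, cen_of_mem_cube]
    intro i _
    have := abs_lt.mp (hx i)
    exact ⟨this.1.le, this.2⟩

end Pool.Agent.PD4
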