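import Pool.Agent.PD4.Geo.Sub

/-!
# Project PD, geometry: comparison of `PJ` with the explicit octonionic model
-/

open Matrix
open scoped ContDiff ComplexOrder

namespace Pool.Agent.PD4

open Loc

section e0

variable {p r : ℝ → ℝ} {a b : ℝ}

lemma cx_smul {κ κ' : Type*} (t : ℝ) (M : Matrix κ κ' ℝ) : cx (t • M) = (t : ℂ) • cx M := by
  ext i j
  simp [cx]

lemma e0_eq (p r : ℝ → ℝ) (z : Fin 8 → ℝ) : e0 octFrame p r z =
    fromBlocks (((p (Loc.sq z) : ℝ) : ℂ) • (1 : Matrix (Fin 8) (Fin 8) ℂ))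
      (((r (Loc.sq z) : ℝ) : ℂ) • (cx (octFrame.lin z))ᴴ)
      (((r (Loc.sq z) : ℝ) : ℂ) • cx (octFrame.lin z))
      ((1 - ((p (Loc.sq z) : ℝ) : ℂ)) • (1 : Matrix (Fin 8) (Fin 8) ℂ)) := by
  rw [e0, Matrix.fromBlocks_map]
  have h1 : ∀ t : ℝ, ((t • (1 : Matrix (Fin 8) (Fin 8) ℝ)).map fun t : ℝ => (t : ℂ)) =
      (t : ℂ) • (1 : Matrix (Fin 8) (Fin 8) ℂ) := by
    intro t
    rw [← cx_one, ← cx_smul]
    rfl
  have h2 : ∀ (t : ℝ) (M : Matrix (Fin 8) (Fin 8) ℝ), ((t • M).map fun t : ℝ => (t : ℂ)) =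
      (t : ℂ) • cx M := fun t M => cx_smul t M
  rw [h1, h1, h2, h2, cx_conjTranspose]
  push_cast
  rfl

lemma cx_lin_tl (z : Fin 8 → ℝ) : (cx (octFrame.lin z))ᴴ * cx (octFrame.lin z) =
    ((Loc.sq z : ℝ) : ℂ) • (1 : Matrix (Fin 8) (Fin 8) ℂ) := by
  rw [cx_conjTranspose, ← cx_mul, octFrame.lin_tl, cx_smul, cx_one]

lemma cx_lin_lt (z : Fin 8 → ℝ) : cx (octFrame.lin z) * (cx (octFrame.lin z))ᴴ =
    ((Loc.sq z : ℝ) : ℂ) • (1 : Matrix (Fin 8) (Fin 8) ℂ) := by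
  rw [cx_conjTranspose, ← cx_mul, octFrame.lin_lt, cx_smul, cx_one]

lemma e0_idem (hp : Profile p r a b) (z : Fin 8 → ℝ) :
    e0 octFrame p r z * e0 octFrame p r z = e0 octFrame p r z := by
  have hn : ((Loc.sq z : ℝ) : ℂ) * ((r (Loc.sq z) : ℝ) : ℂ) ^ 2 =
      ((p (Loc.sq z) : ℝ) : ℂ) * (1 - ((p (Loc.sq z) : ℝ) : ℂ)) := by
    have := hp.norm (Loc.sq z)
    exact_mod_cast congrArg (fun t : ℝ => (t : ℂ)) this
  rw [e0_eq, Matrix.fromBlocks_multiply]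
  simp only [Matrix.smul_mul, Matrix.mul_smul, Matrix.mul_one, Matrix.one_mul, cx_lin_tl,
    cx_lin_lt, smul_smul, ← add_smul]
  congr 1
  · congr 1
    linear_combination hn
  · congr 1
    ring
  · congr 1
    ring
  · congr 1
    linear_combination hn

lemma e0_herm (z : Fin 8 → ℝ) : (e0 octFrame p r z)ᴴ = e0 octFrame p r z := by
  rw [e0_eq, Matrix.fromBlocks_conjTranspose]
  simp [Matrix.conjTranspose_smul]

lemma e0_trace (z : Fin 8 → ℝ) : (e0 octFrame p r z).trace = 8 := by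
  rw [e0_eq, trace_fromBlocks', Matrix.trace_smul, Matrix.trace_smul, Matrix.trace_one]
  simp only [smul_eq_mul, Fintype.card_fin]
  push_cast
  ring

end e0

lemma star_elim {κ κ' : Type*} (u : κ → ℂ) (v : κ' → ℂ) :
    star (Sum.elim u v) = Sum.elim (star u) (star v) := by
  funext i
  rcases i with i | i <;> rfl

lemma star_dot_mulVec {κ : Type*} [Fintype κ] {E : Matrix κ κ ℂ} (hE : Eᴴ = E) (u w : κ → ℂ) :
    star u ⬝ᵥ (E *ᵥ w) = star (E *ᵥ u) ⬝ᵥ w := by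
  rw [Matrix.star_mulVec, hE, Matrix.dotProduct_mulVec]

lemma re_star_dot_self {κ : Type*} [Fintype κ] (u : κ → ℂ) : 0 ≤ (star u ⬝ᵥ u).re := by
  have := dotProduct_star_self_nonneg (R := ℂ) u
  exact (Complex.le_def.mp this).1

lemma re_star_dot_self_pos {κ : Type*} [Fintype κ] {u : κ → ℂ} (hu : u ≠ 0) :
    0 < (star u ⬝ᵥ u).re := by
  have h2 : 0 < star u ⬝ᵥ u := (Matrix.dotProduct_star_self_pos_iff (R := ℂ)).mpr hu
  exact (Complex.lt_def.mp h2).1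

variable {ι : Type*} [Fintype ι] [DecidableEq ι] {C : CoreData ι}

namespace Setup

variable (S : Setup C)

lemma big' : Big C.g S.b S.ρ := fun x hx => lt_of_le_of_lt S.hb (S.big x hx)

/-- the model idempotent -/
noncomputable def E0 : Matrix (Fin 8 ⊕ Fin 8) (Fin 8 ⊕ Fin 8) (Sm 8) :=
  modelSm S.prof S.hρ S.big'

lemma mev_E0 (x : Fin 8 → ℝ) : mev x S.E0 = e0 octFrame S.p S.r (C.g *ᵥ cen x) := rfl

lemma E0_idem : S.E0 * S.E0 = S.E0 :=
  mev_injective fun x => by rw [mev_mul, mev_E0]; exact e0_idem S.prof _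

lemma E0_herm : (S.E0)ᴴ = S.E0 :=
  mev_injective fun x => by rw [mev_conjTranspose, mev_E0]; exact e0_herm _

/-- the comparison map before projection -/
noncomputable def bet : Matrix (Fin 8 ⊕ Fin 8) ι (Sm 8) :=
  Matrix.fromRows (S.tp • (rMat C.g * S.Y1 * (S.A)ᴴ))
    ((1 - S.tp) • ((2 * Real.pi * Complex.I : ℂ)⁻¹ • rMat (dEps S.ε * C.lam)))

lemma mev_bet (x : Fin 8 → ℝ) : mev x S.bet =
    Matrix.fromRows (((S.p (S.tau x) : ℝ) : ℂ) • (cx C.g * mev x S.Y1 * (mev x S.A)ᴴ))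
      ((1 - ((S.p (S.tau x) : ℝ) : ℂ)) • ((2 * Real.pi * Complex.I : ℂ)⁻¹ •
        (cx (dEps S.ε) * cx C.lam))) := by
  have h : mev x S.bet = Matrix.fromRows (mev x (S.tp • (rMat C.g * S.Y1 * (S.A)ᴴ)))
      (mev x ((1 - S.tp) • ((2 * Real.pi * Complex.I : ℂ)⁻¹ • rMat (dEps S.ε * C.lam)))) := by
    ext i j
    rcases i with i | i <;> rfl
  rw [h, mev_rsmul, mev_rsmul, mev_smul, mev_mul, mev_mul, mev_conjTranspose, mev_rMat, mev_rMat,
    cx_mul]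
  rfl

/-- the comparison map -/
noncomputable def al : Matrix (Fin 8 ⊕ Fin 8) ι (Sm 8) := S.E0 * S.bet * S.PJ

lemma cx_dEps_inj {ε : ℝ} (hε : 0 < ε) {v : Fin 8 → ℂ} (h : cx (dEps ε) *ᵥ v = 0) : v = 0 := by
  have hd : cx (dEps ε) = Matrix.diagonal fun i : Fin 8 => if i = 0 then (ε : ℂ) else 1 := by
    ext i j
    by_cases hij : i = j
    · subst hij
      by_cases hi : i = 0 <;> simp [cx, dEps, hi]
    · simp [cx, dEps, hij]
  rw [hd] at h
  funext i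
  have := congrFun h i
  rw [Matrix.mulVec_diagonal] at this
  by_cases hi : i = 0
  · simp only [hi, if_true, Pi.zero_apply, mul_eq_zero, Complex.ofReal_eq_zero] at this
    rw [hi]
    rcases this with h | h
    · exact absurd h hε.ne'
    · exact h
  · simpa [hi] using this

lemma cx_g_inj {v : Fin 8 → ℂ} (h : cx C.g *ᵥ v = 0) : v = 0 := by
  have h1 : cx (C.g⁻¹) * cx C.g = 1 := by
    rw [← cx_mul, Matrix.nonsing_inv_mul _ (isUnit_iff_ne_zero.mpr C.hg), cx_one]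
  calc v = (cx (C.g⁻¹) * cx C.g) *ᵥ v := by rw [h1, Matrix.one_mulVec]
    _ = 0 := by rw [← Matrix.mulVec_mulVec, h, Matrix.mulVec_zero]

lemma two_pi_I_inv_ne : (2 * Real.pi * Complex.I : ℂ)⁻¹ ≠ 0 := by
  apply inv_ne_zero
  simp [Real.pi_ne_zero]

/-- the comparison map is injective on `PJ` -/
lemma al_inj (x : Fin 8 → ℝ) (v : ι → ℂ) (hv : mev x S.PJ *ᵥ v = v)
    (h : mev x S.al *ᵥ v = 0) : v = 0 := by
  set p0 : ℝ := S.p (S.tau x) with hp0
  set r0 : ℝ := S.r (S.tau x) with hr0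
  set z : Fin 8 → ℝ := C.g *ᵥ cen x with hz
  set w : Fin 8 → ℂ := (mev x S.Y1 * (mev x S.A)ᴴ) *ᵥ v with hw
  set μ : Fin 8 → ℂ := (2 * Real.pi * Complex.I : ℂ)⁻¹ • (cx (dEps S.ε) *ᵥ (cx C.lam *ᵥ v)) with hμ
  have hβ : mev x S.bet *ᵥ v = Sum.elim ((p0 : ℂ) • (cx C.g *ᵥ w)) ((1 - (p0 : ℂ)) • μ) := by
    rw [mev_bet, Matrix.fromRows_mulVec]
    congr 1
    · rw [Matrix.smul_mulVec, hw, Matrix.mul_assoc, ← Matrix.mulVec_mulVec]
    · rw [Matrix.smul_mulVec, Matrix.smul_mulVec, hμ, ← Matrix.mulVec_mulVec]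
  have h0 : mev x S.E0 *ᵥ (mev x S.bet *ᵥ v) = 0 := by
    rw [al, mev_mul, mev_mul, ← Matrix.mulVec_mulVec, ← Matrix.mulVec_mulVec, hv] at h
    exact h
  have hEh : (mev x S.E0)ᴴ = mev x S.E0 := by rw [mev_E0]; exact e0_herm _
  have hpair : ∀ u, star (mev x S.E0 *ᵥ u) ⬝ᵥ (mev x S.bet *ᵥ v) = 0 := by
    intro u
    rw [← star_dot_mulVec hEh, h0, dotProduct_zero]
  have hE : mev x S.E0 = fromBlocks ((p0 : ℂ) • (1 : Matrix (Fin 8) (Fin 8) ℂ))
      ((r0 : ℂ) • (cx (octFrame.lin z))ᴴ) ((r0 : ℂ) • cx (octFrame.lin z))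
      ((1 - (p0 : ℂ)) • (1 : Matrix (Fin 8) (Fin 8) ℂ)) := by
    rw [mev_E0, e0_eq]
    rfl
  by_cases hp : p0 = 0
  · -- near the lattice
    have h1 : μ = 0 := by
      have h2 := hpair (Sum.elim 0 μ)
      rw [hE, Matrix.fromBlocks_mulVec, hβ, hp] at h2
      have h3 : star μ ⬝ᵥ μ = 0 := by
        rw [star_elim, sumElim_dotProduct_sumElim] at h2
        simpa using h2
      by_contra hne
      have := re_star_dot_self_pos hne
      rw [h3] at this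
      simp at this
    have h2 : cx C.lam *ᵥ v = 0 := by
      apply cx_dEps_inj S.hε
      rw [hμ] at h1
      exact (smul_eq_zero.mp h1).resolve_left two_pi_I_inv_ne
    have hp1 : S.p (S.tau x) ≠ 1 := by
      rw [← hp0, hp]; norm_num
    have h3 : mev x S.Q0 *ᵥ v = v := by rw [← S.PJ_near hp1, hv]
    have h4 : mev x C.P *ᵥ v = v := by
      conv_lhs => rw [← hv, Matrix.mulVec_mulVec, (S.PJ_props x).2.2.1]
      exact hv
    rw [← h3, mev_Q0, ← Matrix.mulVec_mulVec, h4, ← Matrix.mulVec_mulVec, h2, Matrix.mulVec_zero]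
  · -- away from the lattice
    have hlat : ¬ IsLat x := S.not_isLat_of_p hp
    have hvw : v = mev x S.A *ᵥ w := by
      rw [hw, Matrix.mulVec_mulVec, ← Matrix.mul_assoc, ← S.PJ_far hp, hv]
    suffices hw0 : w = 0 by rw [hvw, hw0, Matrix.mulVec_zero]
    by_contra hwne
    have h2 := hpair (Sum.elim (cx C.g *ᵥ w) 0)
    rw [hE, Matrix.fromBlocks_mulVec, hβ] at h2
    have h3 : (p0 : ℂ) * (p0 : ℂ) * (star (cx C.g *ᵥ w) ⬝ᵥ (cx C.g *ᵥ w)) +
        (r0 : ℂ) * (1 - (p0 : ℂ)) * (star (cx (octFrame.lin z) *ᵥ (cx C.g *ᵥ w)) ⬝ᵥ μ) = 0 := by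
      rw [star_elim, sumElim_dotProduct_sumElim] at h2
      simp only [Sum.elim_comp_inl, Sum.elim_comp_inr, Matrix.mulVec_zero, add_zero,
        Matrix.smul_mulVec, Matrix.one_mulVec, star_smul, smul_dotProduct, dotProduct_smul,
        smul_eq_mul, Complex.star_def, Complex.conj_ofReal] at h2
      linear_combination h2
    have hgw : cx C.g *ᵥ w ≠ 0 := fun hc => hwne (cx_g_inj hc)
    have hpos := re_star_dot_self_pos hgw
    have h4 := congrArg Complex.re h3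
    rw [Complex.add_re] at h4
    have e1 : ((p0 : ℂ) * (p0 : ℂ) * (star (cx C.g *ᵥ w) ⬝ᵥ (cx C.g *ᵥ w))).re =
        p0 * p0 * (star (cx C.g *ᵥ w) ⬝ᵥ (cx C.g *ᵥ w)).re := by
      rw [← Complex.ofReal_mul, Complex.re_ofReal_mul]
    have e2 : ((r0 : ℂ) * (1 - (p0 : ℂ)) *
        (star (cx (octFrame.lin z) *ᵥ (cx C.g *ᵥ w)) ⬝ᵥ μ)).re =
        r0 * (1 - p0) * (star (cx (octFrame.lin z) *ᵥ (cx C.g *ᵥ w)) ⬝ᵥ μ).re := by
      have : (r0 : ℂ) * (1 - (p0 : ℂ)) = ((r0 * (1 - p0) : ℝ) : ℂ) := by push_cast; ring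
      rw [this, Complex.re_ofReal_mul]
    rw [e1, e2] at h4
    have h5 : 0 ≤ r0 * (1 - p0) * (star (cx (octFrame.lin z) *ᵥ (cx C.g *ᵥ w)) ⬝ᵥ μ).re := by
      by_cases hq : p0 = 1
      · rw [hq]; simp
      · have hq' : S.p (S.tau x) ≠ 1 := hq
        have hφ3 : S.φ3 (S.tau x) ≠ 0 := by rw [S.c23 _ hq']; exact one_ne_zero
        have hy : cen x ≠ 0 := fun hc => hlat (isLat_iff_cen.mpr hc)
        have h6 := S.near3 (cen x) hy hφ3 w hwne
        have e3 : μ = C.LF S.ε (cen x) *ᵥ w := by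
          have e4 : cx C.lam *ᵥ v = (cx C.lam * mev x C.F) *ᵥ w := by
            rw [hvw, Matrix.mulVec_mulVec, S.A_near hq', ← Matrix.mul_assoc,
              (S.Q0_props (S.phi4_near hq')).2.2.1, Matrix.mul_assoc, mev_PF]
          rw [hμ, e4, CoreData.LF, Matrix.smul_mulVec, ← mev_congr_cen x C.F,
            Matrix.mulVec_mulVec]
        rw [← e3, cx_mul, ← Matrix.mulVec_mulVec] at h6
        have h7 : 0 ≤ 1 - p0 := by have := S.prof.le1 (S.tau x); linarith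
        have h8 : 0 ≤ r0 := S.prof.rpos _
        exact mul_nonneg (mul_nonneg h8 h7) h6.le
    have h9 : 0 < p0 * p0 * (star (cx C.g *ᵥ w) ⬝ᵥ (cx C.g *ᵥ w)).re :=
      mul_pos (mul_self_pos.mpr hp) hpos
    simp only [Complex.zero_re] at h4
    linarith

/-- **`PJ` is stably the octonionic model** -/
theorem evenCh_PJ : evenCh 4 S.PJ = 1 ∨ evenCh 4 S.PJ = -1 := by
  obtain ⟨Y, -, -, hYX, hXY⟩ := mvn_of_pointwise (p := S.E0) (q := S.PJ) (X := S.al)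
    S.E0_idem S.E0_herm S.PJ_idem S.PJ_herm
    (by rw [al, ← Matrix.mul_assoc, ← Matrix.mul_assoc, S.E0_idem])
    (by rw [al, Matrix.mul_assoc, S.PJ_idem])
    (fun x v hv h => S.al_inj x v hv h)
    (fun x => by rw [mev_E0, e0_trace, S.PJ_trace])
  have h : evenCh 4 S.E0 = evenCh 4 S.PJ :=
    evenCh_mvn 4 (e := S.E0) (f := S.PJ) S.E0_idem S.PJ_idem S.al Y hXY hYX
  rw [← h]
  exact evenCh_modelSm S.prof C.hg S.hρ S.big'

end Setup

end Pool.Agent.PD4
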