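import Pool.Agent.PD4.Geo.Core

/-!
# Project PD, geometry: existence of profile functions and of the radius (helper40)
-/

open Matrix
open scoped ContDiff

namespace Pool.Agent.PD4

open Loc

/-- the angle function -/
noncomputable def angF (a b t : ℝ) : ℝ :=
  Real.pi / 2 * Real.smoothTransition ((t - a) / (b - a))

lemma angF_smooth (a b : ℝ) : ContDiff ℝ ∞ (angF a b) :=
  contDiff_const.mul (Real.smoothTransition.contDiff.comp
    ((contDiff_id.sub contDiff_const).div_const _))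

lemma angF_lo {a b t : ℝ} (hab : a < b) (ht : t ≤ a) : angF a b t = 0 := by
  unfold angF
  rw [Real.smoothTransition.zero_of_nonpos (div_nonpos_of_nonpos_of_nonneg (by linarith)
    (by linarith)), mul_zero]

lemma angF_hi {a b t : ℝ} (hab : a < b) (ht : b ≤ t) : angF a b t = Real.pi / 2 := by
  unfold angF
  rw [Real.smoothTransition.one_of_one_le, mul_one]
  rw [le_div_iff₀ (by linarith)]
  linarith

lemma angF_nonneg (a b t : ℝ) : 0 ≤ angF a b t :=
  mul_nonneg (by positivity) (Real.smoothTransition.nonneg _)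

lemma angF_le (a b t : ℝ) : angF a b t ≤ Real.pi / 2 := by
  unfold angF
  have h1 := Real.smoothTransition.le_one ((t - a) / (b - a))
  have h2 : 0 < Real.pi / 2 := by positivity
  nlinarith

/-- a smooth positive function which is the identity on `[a, ∞)` -/
noncomputable def posF (a t : ℝ) : ℝ :=
  a + Real.smoothTransition ((t - a / 2) / (a / 2)) * (t - a)

lemma posF_smooth (a : ℝ) : ContDiff ℝ ∞ (posF a) :=
  contDiff_const.add ((Real.smoothTransition.contDiff.comp
    ((contDiff_id.sub contDiff_const).div_const _)).mul (contDiff_id.sub contDiff_const))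

lemma posF_hi {a t : ℝ} (ha : 0 < a) (ht : a ≤ t) : posF a t = t := by
  unfold posF
  rw [Real.smoothTransition.one_of_one_le]
  · ring
  · rw [le_div_iff₀ (by linarith)]
    linarith

lemma posF_pos {a : ℝ} (ha : 0 < a) (t : ℝ) : 0 < posF a t := by
  unfold posF
  have h0 := Real.smoothTransition.nonneg ((t - a / 2) / (a / 2))
  have h1 := Real.smoothTransition.le_one ((t - a / 2) / (a / 2))
  rcases le_or_gt t (a / 2) with h | h
  · rw [Real.smoothTransition.zero_of_nonpos (div_nonpos_of_nonpos_of_nonneg (by linarith)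
      (by linarith)), zero_mul, add_zero]
    exact ha
  · set χ := Real.smoothTransition ((t - a / 2) / (a / 2))
    nlinarith

/-- **existence of profile functions** -/
theorem exists_profile {a b : ℝ} (ha : 0 < a) (hab : a < b) :
    ∃ p r : ℝ → ℝ, Profile p r a b := by
  refine ⟨fun t => Real.sin (angF a b t) ^ 2,
    fun t => Real.sin (2 * angF a b t) / (2 * Real.sqrt (posF a t)), ?_⟩
  have hsq : ∀ t, 0 < Real.sqrt (posF a t) := fun t => Real.sqrt_pos.mpr (posF_pos ha t)
  have hlo : ∀ t, t ≤ a → Real.sin (2 * angF a b t) = 0 := fun t ht => by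
    rw [angF_lo hab ht]; simp
  refine ⟨ha, hab, (Real.contDiff_sin.comp (angF_smooth a b)).pow 2, ?_, ?_, ?_, ?_, ?_, ?_, ?_,
    ?_, ?_⟩
  · refine (Real.contDiff_sin.comp (contDiff_const.mul (angF_smooth a b))).div
      (contDiff_const.mul ?_) fun t => by have := hsq t; positivity
    exact (posF_smooth a).sqrt fun t => (posF_pos ha t).ne'
  · intro t
    have h2 : Real.sin (angF a b t) ^ 2 * (1 - Real.sin (angF a b t) ^ 2) =
        Real.sin (2 * angF a b t) ^ 2 / 4 := by
      rw [Real.sin_two_mul, ← Real.cos_sq']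
      ring
    rcases le_or_gt t a with h | h
    · simp only [hlo t h]
      rw [angF_lo hab h]
      simp
    · rw [h2, div_pow, mul_pow, Real.sq_sqrt (posF_pos ha t).le, posF_hi ha h.le]
      have : t ≠ 0 := (ha.trans h).ne'
      field_simp
      ring
  · intro t ht
    simp [angF_lo hab ht]
  · intro t ht
    simp [angF_hi hab ht]
  · intro t ht
    simp only [hlo t ht, zero_div]
  · intro t ht
    have : 2 * angF a b t = Real.pi := by rw [angF_hi hab ht]; ring
    simp [this]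
  · intro t
    refine div_nonneg (Real.sin_nonneg_of_nonneg_of_le_pi ?_ ?_) (by have := hsq t; positivity)
    · have := angF_nonneg a b t; linarith
    · have := angF_le a b t; linarith
  · intro t; positivity
  · intro t
    exact Real.sin_sq_le_one _

/-- each coordinate is controlled by `|g x|²` -/
lemma coord_le_sq (g : Matrix (Fin 8) (Fin 8) ℝ) (hg : g.det ≠ 0) :
    ∃ K : ℝ, 0 < K ∧ ∀ (x : Fin 8 → ℝ) (i : Fin 8), x i ^ 2 ≤ K * Loc.sq (g *ᵥ x) := by
  refine ⟨1 + ∑ i, ∑ j, (g⁻¹ i j) ^ 2, by positivity, fun x i => ?_⟩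
  have hu : IsUnit g.det := isUnit_iff_ne_zero.mpr hg
  have h1 : x = g⁻¹ *ᵥ (g *ᵥ x) := by
    rw [Matrix.mulVec_mulVec, Matrix.nonsing_inv_mul g hu, Matrix.one_mulVec]
  have h2 : x i = ∑ j, g⁻¹ i j * (g *ᵥ x) j := by
    conv_lhs => rw [h1]
    rfl
  have h3 : x i ^ 2 ≤ (∑ j, (g⁻¹ i j) ^ 2) * ∑ j, ((g *ᵥ x) j) ^ 2 := by
    rw [h2]
    exact Finset.sum_mul_sq_le_sq_mul_sq _ _ _
  have h4 : ∑ j, (g⁻¹ i j) ^ 2 ≤ ∑ i, ∑ j, (g⁻¹ i j) ^ 2 :=
    Finset.single_le_sum (f := fun i => ∑ j, (g⁻¹ i j) ^ 2)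
      (fun i _ => Finset.sum_nonneg fun j _ => sq_nonneg _) (Finset.mem_univ i)
  have h5 : 0 ≤ Loc.sq (g *ᵥ x) := sq_nonneg' _
  calc x i ^ 2 ≤ (∑ j, (g⁻¹ i j) ^ 2) * Loc.sq (g *ᵥ x) := h3
    _ ≤ (1 + ∑ i, ∑ j, (g⁻¹ i j) ^ 2) * Loc.sq (g *ᵥ x) := by
        apply mul_le_mul_of_nonneg_right _ h5
        linarith

/-- **existence of the radius** -/
theorem exists_big (g : Matrix (Fin 8) (Fin 8) ℝ) (hg : g.det ≠ 0) :
    ∃ b₀ : ℝ, 0 < b₀ ∧ ∀ b, b ≤ b₀ → Big g b (1 / 4) := by
  obtain ⟨K, hK, h⟩ := coord_le_sq g hg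
  refine ⟨1 / (16 * K), by positivity, fun b hb x ⟨i, hi⟩ => ?_⟩
  have h1 := h x i
  have h2 : (1 / 16 : ℝ) < x i ^ 2 := by
    rw [← sq_abs]
    nlinarith [abs_nonneg (x i)]
  have h3 : 1 / (16 * K) < Loc.sq (g *ᵥ x) := by
    rw [div_lt_iff₀ (by positivity)]
    nlinarith
  linarith

/-- everything at once: profile functions with arbitrarily small support of the transition -/
theorem exists_profile_big (g : Matrix (Fin 8) (Fin 8) ℝ) (hg : g.det ≠ 0) {η : ℝ} (hη : 0 < η) :
    ∃ (a b : ℝ) (p r : ℝ → ℝ), 0 < a ∧ a < b ∧ b < η ∧ Profile p r a b ∧ Big g b (1 / 4) := by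
  obtain ⟨b₀, hb₀, hbig⟩ := exists_big g hg
  set b := min b₀ (η / 2) with hb
  have hb0 : 0 < b := lt_min hb₀ (by positivity)
  obtain ⟨p, r, hpr⟩ := exists_profile (a := b / 2) (b := b) (by positivity) (by linarith)
  refine ⟨b / 2, b, p, r, by positivity, by linarith, ?_, hpr, hbig b (min_le_left _ _)⟩
  have := min_le_right b₀ (η / 2)
  rw [← hb] at this
  linarith

end Pool.Agent.PD4
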