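import Pool.Agent.PD4.Geo.Setup
import Pool.Agent.PD4.Geo.ProfEx

/-!
# Project PD, geometry: existence of the cut-off data `Setup` (helper40)
-/

open Matrix
open scoped ContDiff ComplexOrder

namespace Pool.Agent.PD4

open Loc

/-! ### down steps -/

/-- smooth down-step: `1` for `t ≤ a`, `0` for `b ≤ t` -/
noncomputable def dn (a b t : ℝ) : ℝ := 1 - Real.smoothTransition ((t - a) / (b - a))

lemma dn_smooth (a b : ℝ) : ContDiff ℝ ∞ (dn a b) :=
  contDiff_const.sub (Real.smoothTransition.contDiff.comp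
    ((contDiff_id.sub contDiff_const).div_const _))

lemma dn_lo {a b t : ℝ} (hab : a < b) (ht : t ≤ a) : dn a b t = 1 := by
  unfold dn
  rw [Real.smoothTransition.zero_of_nonpos (div_nonpos_of_nonpos_of_nonneg (by linarith)
    (by linarith)), sub_zero]

lemma dn_hi {a b t : ℝ} (hab : a < b) (ht : b ≤ t) : dn a b t = 0 := by
  unfold dn
  rw [Real.smoothTransition.one_of_one_le, sub_self]
  rw [le_div_iff₀ (by linarith)]
  linarith

lemma dn_nonneg (a b t : ℝ) : 0 ≤ dn a b t :=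
  sub_nonneg.mpr (Real.smoothTransition.le_one _)

lemma dn_le_one (a b t : ℝ) : dn a b t ≤ 1 := by
  unfold dn
  linarith [Real.smoothTransition.nonneg ((t - a) / (b - a))]

/-! ### complexified octonion algebra -/

lemma cx_smul_near {κ κ' : Type*} (r : ℝ) (M : Matrix κ κ' ℝ) : cx (r • M) = (r : ℂ) • cx M := by
  ext i j
  simp [cx]

lemma cx_transpose_near {κ κ' : Type*} (M : Matrix κ κ' ℝ) : (cx M)ᵀ = cx Mᵀ := rfl

/-- `L_u = L(g u) g` -/
noncomputable def Lg (g : Matrix (Fin 8) (Fin 8) ℝ) (u : Fin 8 → ℝ) : Matrix (Fin 8) (Fin 8) ℝ :=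
  octFrame.lin (g *ᵥ u) * g

lemma octM_succ (Q g : Matrix (Fin 8) (Fin 8) ℝ) (u : Fin 8 → ℝ) (c : Fin 7) (l : Fin 8) :
    octM Q g u c.succ l = Lg g u c.succ l := by
  unfold octM Lg
  rw [if_neg (Fin.succ_ne_zero c)]

lemma octM_zero (Q g : Matrix (Fin 8) (Fin 8) ℝ) (u : Fin 8 → ℝ) (l : Fin 8) :
    octM Q g u 0 l = (u ᵥ* Q) l := by
  unfold octM
  rw [if_pos rfl]

lemma lin_row_zero (y : Fin 8 → ℝ) (j : Fin 8) : octFrame.lin y 0 j = y j := by
  have h := octFrame_row_zero y (Pi.single j 1)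
  rw [Matrix.mulVec_single_one, dotProduct_single_one] at h
  exact h

/-- if the rows `1, ..., 7` of `L(y) w` vanish then `|y|² w = (L(y) w)_0 y` -/
lemma parallel_of_im_zero (y : Fin 8 → ℝ) (w : Fin 8 → ℂ)
    (h : ∀ c : Fin 7, (cx (octFrame.lin y) *ᵥ w) c.succ = 0) (j : Fin 8) :
    ((Loc.sq y : ℝ) : ℂ) * w j = (cx (octFrame.lin y) *ᵥ w) 0 * (y j : ℂ) := by
  have h1 : (cx (octFrame.lin y))ᵀ *ᵥ (cx (octFrame.lin y) *ᵥ w) =
      ((Loc.sq y : ℝ) : ℂ) • w := by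
    rw [Matrix.mulVec_mulVec, cx_transpose_near, ← cx_mul, OctFrame.lin_tl, cx_smul_near, cx_one,
      Matrix.smul_mulVec, Matrix.one_mulVec]
  have h2 := congrFun h1 j
  rw [Pi.smul_apply, smul_eq_mul] at h2
  rw [← h2]
  have h3 : ((cx (octFrame.lin y))ᵀ *ᵥ (cx (octFrame.lin y) *ᵥ w)) j =
      ∑ c, (cx (octFrame.lin y)) c j * (cx (octFrame.lin y) *ᵥ w) c := rfl
  rw [h3, Fin.sum_univ_succ]
  simp only [h, mul_zero, Finset.sum_const_zero, add_zero]
  have h4 : cx (octFrame.lin y) 0 j = (y j : ℂ) := by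
    show ((octFrame.lin y 0 j : ℝ) : ℂ) = _
    rw [lin_row_zero]
  rw [h4, mul_comm]

lemma sq_pos_near {y : Fin 8 → ℝ} (hy : y ≠ 0) : 0 < Loc.sq y := by
  obtain ⟨i, hi⟩ := Function.ne_iff.mp hy
  have hi' : y i ≠ 0 := hi
  have h1 : 0 < y i ^ 2 := by positivity
  exact lt_of_lt_of_le h1 (Finset.single_le_sum (f := fun i => y i ^ 2)
    (fun i _ => sq_nonneg _) (Finset.mem_univ i))

section

variable (Q g : Matrix (Fin 8) (Fin 8) ℝ)

/-- the part with the rows `1, ..., 7` -/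
noncomputable def aF (u : Fin 8 → ℝ) (v : Fin 8 → ℂ) : ℝ :=
  ∑ c : Fin 7, Complex.normSq ((cx (Lg g u) *ᵥ v) c.succ)

/-- the part with row `0` -/
noncomputable def bF (u : Fin 8 → ℝ) (v : Fin 8 → ℂ) : ℝ :=
  (star ((cx (Lg g u) *ᵥ v) 0) * (cx (octM Q g u) *ᵥ v) 0).re

lemma aF_nonneg (u : Fin 8 → ℝ) (v : Fin 8 → ℂ) : 0 ≤ aF g u v :=
  Finset.sum_nonneg fun _ _ => Complex.normSq_nonneg _

lemma dEps_mulVec_zero (ε : ℝ) (w : Fin 8 → ℂ) : (cx (dEps ε) *ᵥ w) 0 = (ε : ℂ) * w 0 := by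
  have : cx (dEps ε) = Matrix.diagonal fun i : Fin 8 => ((if i = 0 then ε else 1 : ℝ) : ℂ) := by
    ext i j
    by_cases h : i = j
    · subst h; simp [cx, dEps]
    · simp [cx, dEps, h]
  rw [this, Matrix.mulVec_diagonal]
  simp

lemma dEps_mulVec_succ (ε : ℝ) (w : Fin 8 → ℂ) (c : Fin 7) :
    (cx (dEps ε) *ᵥ w) c.succ = w c.succ := by
  have : cx (dEps ε) = Matrix.diagonal fun i : Fin 8 => ((if i = 0 then ε else 1 : ℝ) : ℂ) := by
    ext i j
    by_cases h : i = j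
    · subst h; simp [cx, dEps]
    · simp [cx, dEps, h]
  rw [this, Matrix.mulVec_diagonal]
  simp [Fin.succ_ne_zero]

lemma main_form_near (ε : ℝ) (u : Fin 8 → ℝ) (v : Fin 8 → ℂ) :
    (star (cx (Lg g u) *ᵥ v) ⬝ᵥ ((cx (dEps ε) * cx (octM Q g u)) *ᵥ v)).re =
      aF g u v + ε * bF Q g u v := by
  rw [dotProduct, Fin.sum_univ_succ, ← Matrix.mulVec_mulVec]
  simp only [dEps_mulVec_zero, dEps_mulVec_succ, Pi.star_apply]
  have h1 : ∀ c : Fin 7, (cx (octM Q g u) *ᵥ v) c.succ = (cx (Lg g u) *ᵥ v) c.succ := by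
    intro c
    simp only [Matrix.mulVec, dotProduct, cx, Matrix.map_apply, octM_succ]
  simp only [h1]
  rw [Complex.add_re, Complex.re_sum, aF, bF, add_comm]
  congr 1
  · refine Finset.sum_congr rfl fun c _ => ?_
    rw [Complex.star_def, mul_comm, Complex.mul_conj, Complex.ofReal_re]
  · have : star ((cx (Lg g u) *ᵥ v) 0) * ((ε : ℂ) * (cx (octM Q g u) *ᵥ v) 0) =
        (ε : ℂ) * (star ((cx (Lg g u) *ᵥ v) 0) * (cx (octM Q g u) *ᵥ v) 0) := by ring
    rw [this, Complex.re_ofReal_mul]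

/-- where the first part vanishes the second one is positive -/
lemma bF_pos (hQ : ∀ u : Fin 8 → ℝ, u ≠ 0 → 0 < u ⬝ᵥ (Q *ᵥ u)) (hg : g.det ≠ 0)
    {u : Fin 8 → ℝ} (hu : u ≠ 0) {v : Fin 8 → ℂ} (hv : v ≠ 0) (ha : aF g u v = 0) :
    0 < bF Q g u v := by
  have hgu : IsUnit g.det := isUnit_iff_ne_zero.mpr hg
  have h0 : ∀ c : Fin 7, (cx (Lg g u) *ᵥ v) c.succ = 0 := by
    intro c
    have := (Finset.sum_eq_zero_iff_of_nonneg fun (c : Fin 7) _ =>
      Complex.normSq_nonneg ((cx (Lg g u) *ᵥ v) c.succ)).mp ha c (Finset.mem_univ c)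
    exact Complex.normSq_eq_zero.mp this
  have hL : cx (Lg g u) *ᵥ v = cx (octFrame.lin (g *ᵥ u)) *ᵥ (cx g *ᵥ v) := by
    rw [Lg, cx_mul, Matrix.mulVec_mulVec]
  rw [hL] at h0
  have hpar := parallel_of_im_zero (g *ᵥ u) (cx g *ᵥ v) h0
  have hy : g *ᵥ u ≠ 0 := by
    intro h
    apply hu
    have : u = g⁻¹ *ᵥ (g *ᵥ u) := by
      rw [Matrix.mulVec_mulVec, Matrix.nonsing_inv_mul g hgu, Matrix.one_mulVec]
    rw [this, h, Matrix.mulVec_zero]
  have hq := sq_pos_near hy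
  set q : ℝ := Loc.sq (g *ᵥ u) with hqdef
  set s : ℂ := (cx (octFrame.lin (g *ᵥ u)) *ᵥ (cx g *ᵥ v)) 0 with hs
  have hgi : cx g⁻¹ * cx g = 1 := by
    rw [← cx_mul, Matrix.nonsing_inv_mul g hgu, cx_one]
  have hcu : cx g *ᵥ (fun l => (u l : ℂ)) = fun j => (((g *ᵥ u) j : ℝ) : ℂ) := by
    funext j
    simp only [Matrix.mulVec, dotProduct, cx, Matrix.map_apply]
    push_cast
    rfl
  have hrel : (q : ℂ) • v = s • (fun l => (u l : ℂ)) := by
    have h1 : cx g *ᵥ ((q : ℂ) • v) = cx g *ᵥ (s • (fun l => (u l : ℂ))) := by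
      rw [Matrix.mulVec_smul, Matrix.mulVec_smul, hcu]
      funext j
      exact hpar j
    have h2 := congrArg (fun w => cx g⁻¹ *ᵥ w) h1
    simpa only [Matrix.mulVec_mulVec, hgi, Matrix.one_mulVec] using h2
  have hs0 : s ≠ 0 := by
    intro h
    rw [h, zero_smul] at hrel
    rcases smul_eq_zero.mp hrel with h1 | h1
    · exact hq.ne' (by exact_mod_cast h1)
    · exact hv h1
  have hrow : (q : ℂ) * (cx (octM Q g u) *ᵥ v) 0 = s * ((u ⬝ᵥ (Q *ᵥ u) : ℝ) : ℂ) := by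
    have h1 : (q : ℂ) * (cx (octM Q g u) *ᵥ v) 0 =
        ∑ l, (((u ᵥ* Q) l : ℝ) : ℂ) * ((q : ℂ) • v) l := by
      simp only [Matrix.mulVec, dotProduct, cx, Matrix.map_apply, octM_zero, Pi.smul_apply,
        smul_eq_mul, Finset.mul_sum]
      refine Finset.sum_congr rfl fun l _ => ?_
      ring
    rw [h1, hrel]
    simp only [Pi.smul_apply, smul_eq_mul]
    rw [Matrix.dotProduct_mulVec, dotProduct]
    push_cast
    rw [Finset.mul_sum]
    refine Finset.sum_congr rfl fun l _ => ?_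
    ring
  have hfin : q * bF Q g u v = Complex.normSq s * (u ⬝ᵥ (Q *ᵥ u)) := by
    have h1 : ((q : ℂ) * (star ((cx (Lg g u) *ᵥ v) 0) * (cx (octM Q g u) *ᵥ v) 0)) =
        ((Complex.normSq s * (u ⬝ᵥ (Q *ᵥ u)) : ℝ) : ℂ) := by
      rw [hL, ← hs]
      calc (q : ℂ) * (star s * (cx (octM Q g u) *ᵥ v) 0)
          = star s * ((q : ℂ) * (cx (octM Q g u) *ᵥ v) 0) := by ring
        _ = star s * (s * ((u ⬝ᵥ (Q *ᵥ u) : ℝ) : ℂ)) := by rw [hrow]
        _ = (s * star s) * ((u ⬝ᵥ (Q *ᵥ u) : ℝ) : ℂ) := by ring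
        _ = _ := by
            rw [Complex.star_def, Complex.mul_conj]
            push_cast
            rfl
    have h2 := congrArg Complex.re h1
    rw [Complex.re_ofReal_mul, Complex.ofReal_re] at h2
    exact h2
  have h3 : 0 < q * bF Q g u v := by
    rw [hfin]
    exact mul_pos (Complex.normSq_pos.mpr hs0) (hQ u hu)
  exact (mul_pos_iff_of_pos_left hq).mp h3

/-! ### compactness -/

lemma continuous_Lg : Continuous fun u : Fin 8 → ℝ => Lg g u := by
  unfold Lg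
  refine Continuous.matrix_mul ?_ continuous_const
  unfold OctFrame.lin
  refine continuous_finsetSum _ fun i _ => ?_
  have h : Continuous fun u : Fin 8 → ℝ => (g *ᵥ u) i :=
    (continuous_apply i).comp (Continuous.matrix_mulVec continuous_const continuous_id)
  exact h.smul continuous_const

lemma continuous_LgV : Continuous fun q : (Fin 8 → ℝ) × (Fin 8 → ℂ) =>
    cx (Lg g q.1) *ᵥ q.2 := by
  refine Continuous.matrix_mulVec ?_ continuous_snd
  refine Continuous.matrix_map ?_ Complex.continuous_ofReal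
  exact (continuous_Lg g).comp continuous_fst

lemma continuous_aF : Continuous fun q : (Fin 8 → ℝ) × (Fin 8 → ℂ) => aF g q.1 q.2 := by
  unfold aF
  refine continuous_finsetSum _ fun c _ => ?_
  exact Complex.continuous_normSq.comp ((continuous_apply _).comp (continuous_LgV g))

lemma octM_row0 (u : Fin 8 → ℝ) (v : Fin 8 → ℂ) :
    (cx (octM Q g u) *ᵥ v) 0 = ∑ l, (((u ᵥ* Q) l : ℝ) : ℂ) * v l := by
  simp only [Matrix.mulVec, dotProduct, cx, Matrix.map_apply, octM_zero]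

lemma continuous_bF : Continuous fun q : (Fin 8 → ℝ) × (Fin 8 → ℂ) => bF Q g q.1 q.2 := by
  unfold bF
  simp only [octM_row0]
  refine Complex.continuous_re.comp (Continuous.mul ?_ ?_)
  · exact Continuous.star ((continuous_apply _).comp (continuous_LgV g))
  · refine continuous_finsetSum _ fun l _ => ?_
    refine Continuous.mul ?_ ((continuous_apply l).comp continuous_snd)
    have h : Continuous fun q : (Fin 8 → ℝ) × (Fin 8 → ℂ) => (q.1 ᵥ* Q) l :=
      (continuous_apply l).comp (Continuous.matrix_vecMul continuous_fst continuous_const)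
    exact Complex.continuous_ofReal.comp h

/-- the product of the unit spheres -/
def KS : Set ((Fin 8 → ℝ) × (Fin 8 → ℂ)) := Metric.sphere 0 1 ×ˢ Metric.sphere 0 1

lemma isCompact_KS : IsCompact KS := (isCompact_sphere _ _).prod (isCompact_sphere _ _)

lemma mem_KS {q : (Fin 8 → ℝ) × (Fin 8 → ℂ)} : q ∈ KS ↔ ‖q.1‖ = 1 ∧ ‖q.2‖ = 1 := by
  simp [KS]

/-- positive lower bound on a compact set -/
lemma exists_lower_near {X : Type*} [TopologicalSpace X] {K : Set X} (hK : IsCompact K) {f : X → ℝ}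
    (hf : ContinuousOn f K) (h : ∀ x ∈ K, 0 < f x) : ∃ m : ℝ, 0 < m ∧ ∀ x ∈ K, m ≤ f x := by
  rcases K.eq_empty_or_nonempty with hne | hne
  · exact ⟨1, one_pos, by simp [hne]⟩
  · obtain ⟨x, hx, hmin⟩ := hK.exists_isMinOn hne hf
    exact ⟨f x, h x hx, fun y hy => hmin hy⟩

lemma exists_eps (hQ : ∀ u : Fin 8 → ℝ, u ≠ 0 → 0 < u ⬝ᵥ (Q *ᵥ u)) (hg : g.det ≠ 0) :
    ∃ ε μ : ℝ, 0 < ε ∧ 0 < μ ∧ ∀ q ∈ KS, μ ≤ aF g q.1 q.2 + ε * bF Q g q.1 q.2 := by
  have hne : ∀ q ∈ KS, q.1 ≠ 0 ∧ q.2 ≠ 0 := by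
    intro q hq
    obtain ⟨h1, h2⟩ := mem_KS.mp hq
    refine ⟨fun h => ?_, fun h => ?_⟩
    · rw [h, norm_zero] at h1; exact zero_ne_one h1
    · rw [h, norm_zero] at h2; exact zero_ne_one h2
  have hcl : IsClosed {q : (Fin 8 → ℝ) × (Fin 8 → ℂ) | bF Q g q.1 q.2 ≤ 0} :=
    isClosed_le (continuous_bF Q g) continuous_const
  obtain ⟨a₀, ha₀, ha⟩ := exists_lower_near (isCompact_KS.inter_right hcl)
    (continuous_aF g).continuousOn (by
      rintro q ⟨hq, hb⟩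
      refine lt_of_le_of_ne (aF_nonneg g q.1 q.2) fun h => ?_
      exact absurd (bF_pos Q g hQ hg (hne q hq).1 (hne q hq).2 h.symm) (not_lt.mpr hb))
  obtain ⟨B, hB⟩ := isCompact_KS.exists_bound_of_continuousOn (continuous_bF Q g).continuousOn
  set B' : ℝ := |B| + 1 with hB'
  have hB'0 : 0 < B' := by positivity
  set ε : ℝ := a₀ / (2 * B') with hε
  have hε0 : 0 < ε := by positivity
  have hpos : ∀ q ∈ KS, 0 < aF g q.1 q.2 + ε * bF Q g q.1 q.2 := by
    intro q hq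
    rcases le_or_gt (bF Q g q.1 q.2) 0 with hb | hb
    · have h1 := ha q ⟨hq, hb⟩
      have h2 := hB q hq
      rw [Real.norm_eq_abs] at h2
      have h3 : -B' ≤ bF Q g q.1 q.2 := by
        have := neg_abs_le (bF Q g q.1 q.2)
        have := le_abs_self B
        linarith
      have h4 : ε * bF Q g q.1 q.2 ≥ ε * (-B') := mul_le_mul_of_nonneg_left h3 hε0.le
      have h5 : ε * (-B') = -(a₀ / 2) := by
        rw [hε]; field_simp
      linarith
    · have h1 := aF_nonneg g q.1 q.2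
      have h2 := mul_pos hε0 hb
      linarith
  obtain ⟨μ, hμ, h⟩ := exists_lower_near isCompact_KS
    ((continuous_aF g).add (continuous_const.mul (continuous_bF Q g))).continuousOn hpos
  exact ⟨ε, μ, hε0, hμ, h⟩

/-- stability of the form under small perturbations -/
lemma near_form (hQ : ∀ u : Fin 8 → ℝ, u ≠ 0 → 0 < u ⬝ᵥ (Q *ᵥ u)) (hg : g.det ≠ 0) :
    ∃ ε η : ℝ, 0 < ε ∧ 0 < η ∧ ∀ (u : Fin 8 → ℝ) (v : Fin 8 → ℂ)
      (E : Matrix (Fin 8) (Fin 8) ℂ), ‖u‖ = 1 → ‖v‖ = 1 → (∀ i j, ‖E i j‖ ≤ η) →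
      0 < (star (cx (Lg g u) *ᵥ v) ⬝ᵥ ((cx (dEps ε) * cx (octM Q g u) + E) *ᵥ v)).re := by
  obtain ⟨ε, μ, hε, hμ, h⟩ := exists_eps Q g hQ hg
  obtain ⟨M, hM⟩ := isCompact_KS.exists_bound_of_continuousOn
    (f := fun q : (Fin 8 → ℝ) × (Fin 8 → ℂ) => ∑ c, ‖(cx (Lg g q.1) *ᵥ q.2) c‖)
    (continuous_finsetSum _ fun c _ =>
      ((continuous_apply c).comp (continuous_LgV g)).norm).continuousOn
  set M' : ℝ := |M| + 1 with hM'
  have hM'0 : 0 < M' := by positivity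
  refine ⟨ε, μ / (16 * M'), hε, by positivity, fun u v E hu hv hE => ?_⟩
  have h1 := h (u, v) (mem_KS.mpr ⟨hu, hv⟩)
  have h2 := hM (u, v) (mem_KS.mpr ⟨hu, hv⟩)
  simp only at h1 h2
  rw [Matrix.add_mulVec, dotProduct_add, Complex.add_re, main_form_near]
  have h3 : ∑ c, ‖(cx (Lg g u) *ᵥ v) c‖ ≤ M' := by
    have h4 := le_trans (le_abs_self _) ((Real.norm_eq_abs _).symm.le.trans h2)
    have := le_abs_self M
    linarith
  have hEv : ∀ c, ‖(E *ᵥ v) c‖ ≤ 8 * (μ / (16 * M')) := by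
    intro c
    calc ‖(E *ᵥ v) c‖ = ‖∑ j, E c j * v j‖ := rfl
      _ ≤ ∑ j : Fin 8, ‖E c j * v j‖ := norm_sum_le _ _
      _ ≤ ∑ j : Fin 8, μ / (16 * M') := by
          refine Finset.sum_le_sum fun j _ => ?_
          rw [norm_mul]
          have h5 : ‖v j‖ ≤ 1 := hv ▸ norm_le_pi_norm v j
          calc ‖E c j‖ * ‖v j‖ ≤ (μ / (16 * M')) * 1 :=
                mul_le_mul (hE c j) h5 (norm_nonneg _) (by positivity)
            _ = _ := mul_one _
      _ = 8 * (μ / (16 * M')) := by simp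
  have h6 : |(star (cx (Lg g u) *ᵥ v) ⬝ᵥ (E *ᵥ v)).re| ≤ μ / 2 := by
    calc |(star (cx (Lg g u) *ᵥ v) ⬝ᵥ (E *ᵥ v)).re|
        ≤ ‖star (cx (Lg g u) *ᵥ v) ⬝ᵥ (E *ᵥ v)‖ := Complex.abs_re_le_norm _
      _ ≤ ∑ c, ‖star ((cx (Lg g u) *ᵥ v) c) * (E *ᵥ v) c‖ := norm_sum_le _ _
      _ ≤ ∑ c, ‖(cx (Lg g u) *ᵥ v) c‖ * (8 * (μ / (16 * M'))) := by
          refine Finset.sum_le_sum fun c _ => ?_
          rw [norm_mul, norm_star]
          exact mul_le_mul_of_nonneg_left (hEv c) (norm_nonneg _)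
      _ = (∑ c, ‖(cx (Lg g u) *ᵥ v) c‖) * (8 * (μ / (16 * M'))) := by rw [Finset.sum_mul]
      _ ≤ M' * (8 * (μ / (16 * M'))) := mul_le_mul_of_nonneg_right h3 (by positivity)
      _ = μ / 2 := by field_simp; norm_num
  have h7 := neg_le_of_abs_le h6
  linarith

/-! ### linearity -/

lemma octM_add (u u' : Fin 8 → ℝ) : octM Q g (u + u') = octM Q g u + octM Q g u' := by
  ext c l
  refine Fin.cases ?_ (fun c => ?_) c
  · simp only [Matrix.add_apply, octM_zero, Matrix.add_vecMul, Pi.add_apply]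
  · simp only [Matrix.add_apply, octM_succ, Lg]
    rw [← Matrix.add_apply, ← Matrix.add_mul]
    rw [Matrix.mulVec_add]
    simp only [OctFrame.lin, Pi.add_apply, add_smul, Finset.sum_add_distrib]

lemma octM_smul (r : ℝ) (u : Fin 8 → ℝ) : octM Q g (r • u) = r • octM Q g u := by
  ext c l
  refine Fin.cases ?_ (fun c => ?_) c
  · simp only [Matrix.smul_apply, octM_zero, Matrix.smul_vecMul, Pi.smul_apply]
  · simp only [Matrix.smul_apply, octM_succ, Lg]
    rw [← Matrix.smul_apply, ← Matrix.smul_mul]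
    rw [Matrix.mulVec_smul]
    simp only [OctFrame.lin, Pi.smul_apply, smul_eq_mul, mul_smul, Finset.smul_sum]

lemma Lg_smul (r : ℝ) (u : Fin 8 → ℝ) : Lg g (r • u) = r • Lg g u := by
  unfold Lg
  rw [← Matrix.smul_mul]
  congr 1
  rw [Matrix.mulVec_smul]
  simp only [OctFrame.lin, Pi.smul_apply, smul_eq_mul, mul_smul, Finset.smul_sum]

/-- entries of `octM` as continuous linear maps -/
noncomputable def octMlin (i j : Fin 8) : (Fin 8 → ℝ) →L[ℝ] ℂ :=
  LinearMap.toContinuousLinearMap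
    { toFun := fun u => ((octM Q g u i j : ℝ) : ℂ)
      map_add' := fun u u' => by rw [octM_add, Matrix.add_apply]; push_cast; rfl
      map_smul' := fun r u => by
        rw [octM_smul, Matrix.smul_apply, RingHom.id_apply, smul_eq_mul]
        push_cast
        rfl }

lemma octMlin_apply (i j : Fin 8) (u : Fin 8 → ℝ) :
    octMlin Q g i j u = ((octM Q g u i j : ℝ) : ℂ) := rfl

end

/-! ### first order behaviour of `F` -/

variable {ι : Type*} [Fintype ι] [DecidableEq ι]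

/-- the error of the linear approximation -/
noncomputable def CoreData.err (C : CoreData ι) (y : Fin 8 → ℝ) (i j : Fin 8) : ℂ :=
  (2 * Real.pi * Complex.I : ℂ)⁻¹ * (cx C.lam * mev y C.F) i j - octMlin C.Q C.g i j y

lemma CoreData.err_hasFDerivAt (C : CoreData ι) (i j : Fin 8) :
    HasFDerivAt (fun y => C.err y i j) (0 : (Fin 8 → ℝ) →L[ℝ] ℂ) 0 := by
  have h1 : ∀ k, HasFDerivAt (C.F k j).1 (fderiv ℝ (C.F k j).1 0) 0 := fun k =>
    ((C.F k j).2.1.differentiable (by simp) _).hasFDerivAt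
  have h2 : HasFDerivAt (fun y => ∑ k, ((C.lam i k : ℝ) : ℂ) * (C.F k j).1 y)
      (∑ k, ((C.lam i k : ℝ) : ℂ) • fderiv ℝ (C.F k j).1 0) 0 := by
    refine HasFDerivAt.fun_sum fun k _ => ?_
    exact (h1 k).const_mul _
  have h3 := (h2.const_mul (2 * Real.pi * Complex.I : ℂ)⁻¹).sub
    (octMlin C.Q C.g i j).hasFDerivAt
  have hfun : (fun y => C.err y i j) = (fun y => (2 * Real.pi * Complex.I : ℂ)⁻¹ *
      ∑ k, ((C.lam i k : ℝ) : ℂ) * (C.F k j).1 y) - ⇑(octMlin C.Q C.g i j) := rfl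
  rw [hfun]
  have hz : ((2 * Real.pi * Complex.I : ℂ)⁻¹ •
      (∑ k, ((C.lam i k : ℝ) : ℂ) • fderiv ℝ (C.F k j).1 0) - octMlin C.Q C.g i j :
      (Fin 8 → ℝ) →L[ℝ] ℂ) = 0 := by
    apply ContinuousLinearMap.coe_injective
    refine (Pi.basisFun ℝ (Fin 8)).ext fun l => ?_
    rw [Pi.basisFun_apply]
    have hf := congrFun (congrFun (C.first l) i) j
    have hpi : (2 * Real.pi * Complex.I : ℂ) ≠ 0 := Complex.two_pi_I_ne_zero
    have e1 : (cx C.lam * mev 0 (C.F.map (pD l))) i j =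
        ∑ k, ((C.lam i k : ℝ) : ℂ) * fderiv ℝ (C.F k j).1 0 (Pi.single l 1) := rfl
    rw [e1] at hf
    change (2 * Real.pi * Complex.I : ℂ)⁻¹ * ((∑ k, ((C.lam i k : ℝ) : ℂ) •
      fderiv ℝ (C.F k j).1 0 : (Fin 8 → ℝ) →L[ℝ] ℂ) (Pi.single l 1)) -
      ((octM C.Q C.g (Pi.single l 1) i j : ℝ) : ℂ) = 0
    rw [_root_.sum_apply]
    have e2 : ∑ k, (((C.lam i k : ℝ) : ℂ) • fderiv ℝ (C.F k j).1 0 :
        (Fin 8 → ℝ) →L[ℝ] ℂ) (Pi.single l 1) =
        ∑ k, ((C.lam i k : ℝ) : ℂ) * fderiv ℝ (C.F k j).1 0 (Pi.single l 1) := rfl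
    rw [e2, hf]
    change (2 * Real.pi * Complex.I : ℂ)⁻¹ * ((2 * Real.pi * Complex.I : ℂ) *
      ((octM C.Q C.g (Pi.single l 1) i j : ℝ) : ℂ)) - _ = 0
    rw [inv_mul_cancel_left₀ hpi, sub_self]
  rw [← hz]
  exact h3

lemma CoreData.err_zero (C : CoreData ι) (i j : Fin 8) : C.err 0 i j = 0 := by
  unfold CoreData.err
  rw [C.F0, Matrix.mul_zero]
  simp

lemma CoreData.err_small (C : CoreData ι) {η : ℝ} (hη : 0 < η) :
    ∃ δ : ℝ, 0 < δ ∧ ∀ y : Fin 8 → ℝ, ‖y‖ < δ → ∀ i j, ‖C.err y i j‖ ≤ η * ‖y‖ := by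
  have h : ∀ᶠ y : Fin 8 → ℝ in nhds 0, ∀ i j, ‖C.err y i j‖ ≤ η * ‖y‖ := by
    rw [Filter.eventually_all]
    intro i
    rw [Filter.eventually_all]
    intro j
    have h1 := (C.err_hasFDerivAt i j).isLittleO
    simp only [C.err_zero, sub_zero, _root_.zero_apply] at h1
    exact h1.bound hη
  obtain ⟨δ, hδ, h2⟩ := Metric.eventually_nhds_iff.mp h
  refine ⟨δ, hδ, fun y hy => h2 ?_⟩
  rwa [dist_zero_right]

/-- the linear map `octM u` is injective for `u ≠ 0` -/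
lemma octM_inj {Q g : Matrix (Fin 8) (Fin 8) ℝ}
    (hQ : ∀ u : Fin 8 → ℝ, u ≠ 0 → 0 < u ⬝ᵥ (Q *ᵥ u)) (hg : g.det ≠ 0) {u : Fin 8 → ℝ}
    (hu : u ≠ 0) {v : Fin 8 → ℂ} (h : cx (octM Q g u) *ᵥ v = 0) : v = 0 := by
  by_contra hv
  have ha : aF g u v = 0 := by
    unfold aF
    refine Finset.sum_eq_zero fun c _ => ?_
    have h1 := congrFun h c.succ
    have h2 : (cx (Lg g u) *ᵥ v) c.succ = (cx (octM Q g u) *ᵥ v) c.succ := by
      simp only [Matrix.mulVec, dotProduct, cx, Matrix.map_apply, octM_succ]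
    rw [h2, h1]
    simp
  have hb := bF_pos Q g hQ hg hu hv ha
  unfold bF at hb
  rw [h] at hb
  simp at hb

/-- `λ P(0) λ*` is invertible -/
lemma CoreData.det_zero_ne (C : CoreData ι) :
    (cx C.lam * mev 0 C.P * (cx C.lam)ᴴ).det ≠ 0 := by
  set u : Fin 8 → ℝ := Pi.single 0 1 with hu
  have hu0 : u ≠ 0 := by
    intro h
    have := congrFun h 0
    simp [hu] at this
  set K : Matrix ι (Fin 8) ℂ := mev 0 (C.F.map (pD 0)) with hK
  have hPK : mev 0 C.P * K = K := by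
    have h1 : C.F.map (pD 0) = (C.P.map (pD 0)) * C.F + C.P * (C.F.map (pD 0)) := by
      conv_lhs => rw [← C.PF]
      ext i j : 2
      rw [Matrix.map_apply, Matrix.mul_apply, map_sum, Matrix.add_apply, Matrix.mul_apply,
        Matrix.mul_apply, ← Finset.sum_add_distrib]
      congr 1
      refine Finset.sum_congr rfl fun k _ => ?_
      rw [pD_leib]
      rfl
    have h2 := congrArg (mev 0) h1
    rw [mev_add, mev_mul, mev_mul, C.F0, Matrix.mul_zero, zero_add] at h2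
    exact h2.symm
  have hfirst : cx C.lam * mev 0 C.P * K = (2 * Real.pi * Complex.I : ℂ) •
      cx (octM C.Q C.g u) := by
    rw [Matrix.mul_assoc, hPK]
    exact C.first 0
  have hpi : (2 * Real.pi * Complex.I : ℂ) ≠ 0 := Complex.two_pi_I_ne_zero
  -- `λ P(0)` is onto
  have hunit : IsUnit (cx (octM C.Q C.g u)) := by
    rw [← Matrix.mulVec_injective_iff_isUnit]
    intro v w hvw
    have : cx (octM C.Q C.g u) *ᵥ (v - w) = 0 := by
      rw [Matrix.mulVec_sub]; exact sub_eq_zero.mpr hvw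
    exact sub_eq_zero.mp (octM_inj C.hQ C.hg hu0 this)
  obtain ⟨O, hO⟩ := hunit
  set R : Matrix ι (Fin 8) ℂ := (2 * Real.pi * Complex.I : ℂ)⁻¹ •
    (K * ((O⁻¹ : (Matrix (Fin 8) (Fin 8) ℂ)ˣ) : Matrix (Fin 8) (Fin 8) ℂ)) with hR
  have hLR : (cx C.lam * mev 0 C.P) * R = 1 := by
    rw [hR, Matrix.mul_smul, ← Matrix.mul_assoc, hfirst, Matrix.smul_mul, smul_smul,
      inv_mul_cancel₀ hpi, one_smul, ← hO, Units.mul_inv]
  have hinj : Function.Injective ((cx C.lam * mev 0 C.P)ᴴ.mulVec) := by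
    intro v w hvw
    have h1 : Rᴴ * (cx C.lam * mev 0 C.P)ᴴ = 1 := by
      rw [← Matrix.conjTranspose_mul, hLR, Matrix.conjTranspose_one]
    have h2 := congrArg (fun z => Rᴴ *ᵥ z) hvw
    simpa only [Matrix.mulVec_mulVec, h1, Matrix.one_mulVec] using h2
  have hpd := Matrix.PosDef.conjTranspose_mul_self ((cx C.lam * mev 0 C.P)ᴴ) hinj
  have heq : ((cx C.lam * mev 0 C.P)ᴴ)ᴴ * (cx C.lam * mev 0 C.P)ᴴ =
      cx C.lam * mev 0 C.P * (cx C.lam)ᴴ := by
    rw [Matrix.conjTranspose_conjTranspose, Matrix.conjTranspose_mul, ← mev_conjTranspose,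
      C.herm, ← Matrix.mul_assoc, Matrix.mul_assoc (cx C.lam), ← mev_mul, C.idem]
  rw [heq] at hpd
  exact hpd.det_pos.ne'

lemma CoreData.det_near (C : CoreData ι) : ∃ δ : ℝ, 0 < δ ∧ ∀ y : Fin 8 → ℝ, ‖y‖ < δ →
    (cx C.lam * mev y C.P * (cx C.lam)ᴴ).det ≠ 0 := by
  have hc : Continuous fun y : Fin 8 → ℝ => (cx C.lam * mev y C.P * (cx C.lam)ᴴ).det := by
    refine Continuous.matrix_det ?_
    refine Continuous.matrix_mul (Continuous.matrix_mul continuous_const ?_) continuous_const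
    refine continuous_matrix fun i j => ?_
    exact (C.P i j).2.1.continuous
  have h1 : ∀ᶠ y : Fin 8 → ℝ in nhds 0, (cx C.lam * mev y C.P * (cx C.lam)ᴴ).det ≠ 0 :=
    hc.continuousAt.eventually_ne C.det_zero_ne
  obtain ⟨δ, hδ, h2⟩ := Metric.eventually_nhds_iff.mp h1
  refine ⟨δ, hδ, fun y hy => h2 ?_⟩
  rwa [dist_zero_right]

/-- **existence of the cut-off data** -/
theorem exists_setup (C : CoreData ι) : Nonempty (Setup C) := by
  obtain ⟨ε, η, hε, hη, hform⟩ := near_form C.Q C.g C.hQ C.hg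
  set η' : ℝ := η / (ε + 1) with hη'
  have hη'0 : 0 < η' := by positivity
  obtain ⟨δ, hδ, herr⟩ := C.err_small hη'0
  obtain ⟨δ', hδ', hdet⟩ := C.det_near
  obtain ⟨K, hK, hcoord⟩ := coord_le_sq C.g C.hg
  obtain ⟨b₀, hb₀, hbig⟩ := exists_big C.g C.hg
  set d : ℝ := min δ δ' with hd
  have hd0 : 0 < d := lt_min hδ hδ'
  set T : ℝ := min b₀ (d ^ 2 / (2 * K)) with hT
  have hT0 : 0 < T := lt_min hb₀ (by positivity)
  have hsmall : ∀ y : Fin 8 → ℝ, Loc.sq (C.g *ᵥ y) < T → ‖y‖ < d := by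
    intro y hy
    rw [pi_norm_lt_iff hd0]
    intro i
    rw [Real.norm_eq_abs]
    have h1 := hcoord y i
    have h2 : T ≤ d ^ 2 / (2 * K) := min_le_right _ _
    have h3 : K * Loc.sq (C.g *ᵥ y) < K * (d ^ 2 / (2 * K)) :=
      mul_lt_mul_of_pos_left (hy.trans_le h2) hK
    have h4 : K * (d ^ 2 / (2 * K)) = d ^ 2 / 2 := by field_simp
    have h5 : y i ^ 2 < d ^ 2 := by
      have : 0 < d ^ 2 := by positivity
      linarith
    exact abs_lt_of_sq_lt_sq h5 hd0.le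
  obtain ⟨p, r, hpr⟩ := exists_profile (a := T / 5) (b := 2 * T / 5) (by positivity)
    (by linarith)
  have e12 : (0 : ℝ) < T / 5 := by positivity
  have e23 : 2 * T / 5 < 3 * T / 5 := by linarith
  have e34 : 3 * T / 5 < 4 * T / 5 := by linarith
  have hlt : ∀ {a b t : ℝ}, a < b → dn a b t ≠ 0 → t < b := by
    intro a b t hab h
    by_contra hc
    exact h (dn_hi hab (not_lt.mp hc))
  refine ⟨{
    T := T
    ρ := 1 / 4
    hT := hT0
    hρ := by norm_num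
    big := hbig T (min_le_left _ _)
    p := p
    r := r
    a := T / 5
    b := 2 * T / 5
    prof := hpr
    hb := by linarith
    φ1 := dn 0 (T / 5)
    φ3 := dn (2 * T / 5) (3 * T / 5)
    φ4 := dn (3 * T / 5) (4 * T / 5)
    s1 := dn_smooth _ _
    s3 := dn_smooth _ _
    s4 := dn_smooth _ _
    z1 := fun t ht => dn_hi e12 (by linarith)
    z3 := fun t ht => dn_hi e23 (by linarith)
    z4 := fun t ht => dn_hi e34 (by linarith)
    nn1 := fun t => dn_nonneg _ _ _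
    nn3 := fun t => dn_nonneg _ _ _
    le3 := fun t => dn_le_one _ _ _
    nn4 := fun t => dn_nonneg _ _ _
    le4 := fun t => dn_le_one _ _ _
    at0 := by rw [dn_lo e12 le_rfl]; exact one_pos
    c12 := fun t ht => hpr.plo t (hlt e12 ht).le
    c23 := fun t ht => dn_lo e23 (by
      by_contra hc
      exact ht (hpr.phi t (not_le.mp hc).le))
    c34 := fun t ht => dn_lo e34 (hlt e23 ht).le
    ε := ε
    hε := hε
    near4 := fun y hy => hdet y ((hsmall y (by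
      have := hlt e34 hy
      linarith)).trans_le (min_le_right _ _))
    near3 := ?_ }⟩
  intro y hy0 hφ v hv
  have hyd : ‖y‖ < δ := (hsmall y (by
    have := hlt e23 hφ
    linarith)).trans_le (min_le_left _ _)
  have hny : 0 < ‖y‖ := norm_pos_iff.mpr hy0
  have hnv : 0 < ‖v‖ := norm_pos_iff.mpr hv
  set u : Fin 8 → ℝ := ‖y‖⁻¹ • y with hu
  set w : Fin 8 → ℂ := ((‖v‖⁻¹ : ℝ) : ℂ) • v with hw
  have hu1 : ‖u‖ = 1 := by
    rw [hu, norm_smul, norm_inv, norm_norm, inv_mul_cancel₀ hny.ne']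
  have hw1 : ‖w‖ = 1 := by
    rw [hw, norm_smul, Complex.norm_real, norm_inv, norm_norm, inv_mul_cancel₀ hnv.ne']
  have hyu : y = ‖y‖ • u := by
    rw [hu, smul_smul, mul_inv_cancel₀ hny.ne', one_smul]
  have hvw : v = ((‖v‖ : ℝ) : ℂ) • w := by
    rw [hw, smul_smul, ← Complex.ofReal_mul, mul_inv_cancel₀ hnv.ne', Complex.ofReal_one,
      one_smul]
  -- the error matrix
  set E : Matrix (Fin 8) (Fin 8) ℂ := ((‖y‖⁻¹ : ℝ) : ℂ) •
    (C.LF ε y - cx (dEps ε) * cx (octM C.Q C.g y)) with hE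
  have hLFE : C.LF ε y = ((‖y‖ : ℝ) : ℂ) • (cx (dEps ε) * cx (octM C.Q C.g u) + E) := by
    have h1 : cx (octM C.Q C.g y) = ((‖y‖ : ℝ) : ℂ) • cx (octM C.Q C.g u) := by
      conv_lhs => rw [hyu]
      rw [octM_smul, cx_smul_near]
    rw [smul_add, hE, smul_smul, ← Complex.ofReal_mul, mul_inv_cancel₀ hny.ne',
      Complex.ofReal_one, one_smul, h1, Matrix.mul_smul]
    abel
  have hEij : ∀ i j, ‖E i j‖ ≤ η := by
    intro i j
    have h1 : (C.LF ε y - cx (dEps ε) * cx (octM C.Q C.g y)) =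
        cx (dEps ε) * (Matrix.of fun i j => C.err y i j) := by
      have h2 : (Matrix.of fun i j => C.err y i j) =
          (2 * Real.pi * Complex.I : ℂ)⁻¹ • (cx C.lam * mev y C.F) - cx (octM C.Q C.g y) := rfl
      rw [h2, Matrix.mul_sub, CoreData.LF, Matrix.mul_smul]
    have h3 : (cx (dEps ε) * (Matrix.of fun i j => C.err y i j)) i j =
        ((if i = 0 then ε else 1 : ℝ) : ℂ) * C.err y i j := by
      have : cx (dEps ε) = Matrix.diagonal fun i : Fin 8 => ((if i = 0 then ε else 1 : ℝ) : ℂ) := by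
        ext i j
        by_cases h : i = j
        · subst h; simp [cx, dEps]
        · simp [cx, dEps, h]
      rw [this, Matrix.diagonal_mul]
      rfl
    rw [hE, Matrix.smul_apply, smul_eq_mul, norm_mul, h1, h3, norm_mul, Complex.norm_real,
      Complex.norm_real, norm_inv, norm_norm]
    have h4 : ‖(if i = 0 then ε else 1 : ℝ)‖ ≤ ε + 1 := by
      split_ifs
      · rw [Real.norm_eq_abs, abs_of_pos hε]; linarith
      · rw [norm_one]; linarith
    calc ‖y‖⁻¹ * (‖(if i = 0 then ε else 1 : ℝ)‖ * ‖C.err y i j‖)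
        ≤ ‖y‖⁻¹ * ((ε + 1) * (η' * ‖y‖)) := by
          gcongr
          exact herr y hyd i j
      _ = η := by
          rw [hη']; field_simp
  have hmain := hform u w E hu1 hw1 hEij
  have hLv : cx (octFrame.lin (C.g *ᵥ y) * C.g) *ᵥ v =
      ((‖y‖ * ‖v‖ : ℝ) : ℂ) • (cx (Lg C.g u) *ᵥ w) := by
    have h1 : octFrame.lin (C.g *ᵥ y) * C.g = ‖y‖ • Lg C.g u := by
      rw [← Lg_smul, ← hyu]; rfl
    rw [h1, cx_smul_near, Matrix.smul_mulVec]
    conv_lhs => rw [hvw]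
    rw [Matrix.mulVec_smul, smul_smul]
    push_cast
    rfl
  have hFv : C.LF ε y *ᵥ v = ((‖y‖ * ‖v‖ : ℝ) : ℂ) •
      ((cx (dEps ε) * cx (octM C.Q C.g u) + E) *ᵥ w) := by
    rw [hLFE, Matrix.smul_mulVec]
    conv_lhs => rw [hvw]
    rw [Matrix.mulVec_smul, smul_smul]
    push_cast
    rfl
  rw [hLv, hFv, star_smul, smul_dotProduct, dotProduct_smul, smul_eq_mul, smul_eq_mul,
    Complex.star_def, Complex.conj_ofReal, ← mul_assoc, ← Complex.ofReal_mul,
    Complex.re_ofReal_mul]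
  exact mul_pos (by positivity) hmain

end Pool.Agent.PD4
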