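import Pool.Agent.PD4.Geo.OutS
import Pool.Agent.PD4.Geo.Near

/-!
# Project PD, geometry: output of the core data
-/

open Matrix

namespace Pool.Agent.PD4

/-- **GEOMETRY CORE**: a Real rank `11` bundle with an octonionic first order map from `ℂ⁸`
splits as `PE ⊕ PJ`, `PE` Real of rank `3`, `ch₄(PJ) = ± 1`, `ch₂(PJ) = 0` on all coordinate
`4`-tori. -/
theorem core_out {ι : Type*} [Fintype ι] [DecidableEq ι] (C : CoreData ι) :
    ∃ PE PJ : Matrix ι ι (Sm 8), PE + PJ = C.P ∧ PE * PE = PE ∧ PEᴴ = PE ∧ PJ * PJ = PJ ∧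
      PJᴴ = PJ ∧ PE * PJ = 0 ∧ PJ * PE = 0 ∧ MReal PE ∧ (∀ x, (mev x PE).trace = 3) ∧
      (evenCh 4 PJ = 1 ∨ evenCh 4 PJ = -1) ∧
      ∀ (s : Fin 4 ↪ Fin 8) (a : Fin 8 → ℝ), evenCh 2 (PJ.map (Sm.restrAt s a)) = 0 := by
  obtain ⟨S⟩ := exists_setup C
  exact core_out_of_setup S

end Pool.Agent.PD4
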