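import Pool.Agent.PD4.Geo.Sub

/-!
# Project PD, geometry: the bundle `PJ` is trivial on the slices missing the lattice
-/

open Matrix
open scoped ContDiff ComplexOrder

namespace Pool.Agent.PD4

open Loc

variable {ι : Type*} [Fintype ι] [DecidableEq ι] {C : CoreData ι}

lemma mev_map_restrAt {m n : ℕ} {κ κ' : Type*} (s : Fin m ↪ Fin n) (a : Fin n → ℝ)
    (M : Matrix κ κ' (Sm n)) (y : Fin m → ℝ) :
    mev y (M.map (Sm.restrAt s a)) = mev (a + emb s y) M := rfl

lemma map_restrAt_mul {m n : ℕ} {κ κ' κ'' : Type*} [Fintype κ'] (s : Fin m ↪ Fin n)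
    (a : Fin n → ℝ) (M : Matrix κ κ' (Sm n)) (N : Matrix κ' κ'' (Sm n)) :
    (M * N).map (Sm.restrAt s a) = M.map (Sm.restrAt s a) * N.map (Sm.restrAt s a) := by
  apply mev_injective
  intro y
  rw [mev_map_restrAt, mev_mul, mev_mul, mev_map_restrAt, mev_map_restrAt]

/-- the slice `x_j = 1/2` misses the lattice -/
lemma slice_not_isLat (s : Fin 4 ↪ Fin 8) (y : Fin 4 → ℝ) :
    ¬ IsLat ((fun _ => 1 / 2 : Fin 8 → ℝ) + emb s y) := by
  have hs : ∃ j : Fin 8, ∀ i, s i ≠ j := by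
    by_contra hc
    push Not at hc
    have hsur : Function.Surjective s := hc
    have := Fintype.card_le_of_surjective _ hsur
    simp at this
  obtain ⟨j, hj⟩ := hs
  rintro ⟨m, hm⟩
  have h := congrFun hm j
  have e : emb s y j = 0 := by
    simp only [emb]
    exact Finset.sum_eq_zero fun i _ => if_neg (hj i)
  simp only [Pi.add_apply, e, add_zero] at h
  have h2 : (1 : ℝ) = ((2 * m j : ℤ) : ℝ) := by push_cast; linarith
  have h3 : (1 : ℤ) = 2 * m j := by exact_mod_cast h2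
  omega

namespace Setup

variable (S : Setup C)

theorem evenCh_slice (s : Fin 4 ↪ Fin 8) (a : Fin 8 → ℝ) :
    evenCh 2 (S.PJ.map (Sm.restrAt s a)) = 0 := by
  rw [evenCh_restrAt (k := 2) s a (fun _ => 1 / 2) S.PJ_idem]
  set b : Fin 8 → ℝ := fun _ => 1 / 2 with hb
  set p : Matrix ι ι (Sm 4) := S.PJ.map (Sm.restrAt s b) with hp
  set X : Matrix ι (Fin 8) (Sm 4) := S.A.map (Sm.restrAt s b) with hX
  have h1 : p * p = p := by rw [hp, ← map_restrAt_mul, S.PJ_idem]
  have h2 : pᴴ = p := by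
    apply mev_injective
    intro y
    rw [mev_conjTranspose, hp, mev_map_restrAt, ← mev_conjTranspose, S.PJ_herm]
  have h3 : p * X = X := by rw [hp, hX, ← map_restrAt_mul, S.PJ_A]
  obtain ⟨Y, -, -, hYX, hXY⟩ := mvn_of_pointwise (p := p) (q := (1 : Matrix (Fin 8) (Fin 8) (Sm 4)))
    (X := X) h1 h2 (Matrix.one_mul 1) Matrix.conjTranspose_one h3 (Matrix.mul_one X)
    (fun y v _ hv => S.A_inj (slice_not_isLat s y) hv)
    (fun y => by
      rw [hp, mev_map_restrAt, S.PJ_trace, mev_one, Matrix.trace_one]; simp)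
  rw [evenCh_mvn 2 (e := p) (f := (1 : Matrix (Fin 8) (Fin 8) (Sm (2 * 2)))) h1
    (Matrix.one_mul 1) X Y hXY hYX]
  exact evenCh_one (by norm_num)

end Setup

end Pool.Agent.PD4
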