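import Pool.Agent.PD4.Geo.RealJ
import Pool.Agent.PD4.Geo.Tran
import Pool.Agent.PD4.Geo.Cmp

/-!
# Project PD, geometry: output of the core data, given the cut-offs
-/

open Matrix

namespace Pool.Agent.PD4

/-- the geometry output from a `Setup` -/
theorem core_out_of_setup {ι : Type*} [Fintype ι] [DecidableEq ι] {C : CoreData ι}
    (S : Setup C) :
    ∃ PE PJ : Matrix ι ι (Sm 8), PE + PJ = C.P ∧ PE * PE = PE ∧ PEᴴ = PE ∧ PJ * PJ = PJ ∧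
      PJᴴ = PJ ∧ PE * PJ = 0 ∧ PJ * PE = 0 ∧ MReal PE ∧ (∀ x, (mev x PE).trace = 3) ∧
      (evenCh 4 PJ = 1 ∨ evenCh 4 PJ = -1) ∧
      ∀ (s : Fin 4 ↪ Fin 8) (a : Fin 8 → ℝ), evenCh 2 (PJ.map (Sm.restrAt s a)) = 0 := by
  refine ⟨C.P - S.PJ, S.PJ, sub_add_cancel _ _, ?_, ?_, S.PJ_idem, S.PJ_herm, ?_, ?_,
    C.real.sub S.PJ_real, ?_, S.evenCh_PJ, S.evenCh_slice⟩
  · rw [Matrix.sub_mul, Matrix.mul_sub, Matrix.mul_sub, C.idem, S.P_PJ, S.PJ_P, S.PJ_idem,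
      sub_self, sub_zero]
  · rw [Matrix.conjTranspose_sub, C.herm, S.PJ_herm]
  · rw [Matrix.sub_mul, S.P_PJ, S.PJ_idem, sub_self]
  · rw [Matrix.mul_sub, S.PJ_P, S.PJ_idem, sub_self]
  · intro x
    rw [mev_sub, Matrix.trace_sub, C.tr, S.PJ_trace]
    norm_num

end Pool.Agent.PD4
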