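import Pool.Agent.PD4.Ix.Sm

/-!
# Project PD, geometry: periodisation of smooth functions which are constant near the boundary
of the unit cube centred at `0`
-/

open MeasureTheory
open scoped ContDiff Pointwise

namespace Pool.Agent.PD4

/-- the representative of `x` modulo `ℤⁿ` in the cube `[-1/2,1/2]ⁿ` -/
noncomputable def cen {n : ℕ} (x : Fin n → ℝ) : Fin n → ℝ := fun i => x i - round (x i)

lemma cen_add_single {n : ℕ} (x : Fin n → ℝ) (i : Fin n) : cen (x + Pi.single i 1) = cen x := by
  funext j
  unfold cen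
  by_cases h : j = i
  · subst h; simp [round_add_one]
  · simp [Pi.single_eq_of_ne h]

lemma abs_cen_le {n : ℕ} (x : Fin n → ℝ) (i : Fin n) : |cen x i| ≤ 1 / 2 := abs_sub_round _

lemma round_eq_of_abs_lt {x : ℝ} {m : ℤ} (h : |x - m| < 1 / 2) : round x = m := by
  have h1 : |x - round x| ≤ 1 / 2 := abs_sub_round x
  have h2 : |((round x - m : ℤ) : ℝ)| < 1 := by
    push_cast
    calc |(round x : ℝ) - m| = |(x - m) - (x - round x)| := by ring_nf
      _ ≤ |x - m| + |x - round x| := abs_sub _ _
      _ < 1 := by linarith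
  have h3 : |round x - m| < 1 := by exact_mod_cast h2
  have := Int.abs_lt_one_iff.mp h3
  omega

/-- a smooth function on `ℝⁿ` which is equal to the constant `c` off the cube `|x_i| ≤ r < 1/2` -/
structure PerData (n : ℕ) where
  F : (Fin n → ℝ) → ℂ
  smooth : ContDiff ℝ ∞ F
  c : ℂ
  r : ℝ
  hr : r < 1 / 2
  out : ∀ x, (∃ i, r < |x i|) → F x = c

lemma PerData.eventually_cen {n : ℕ} (P : PerData n) (x0 : Fin n → ℝ) :
    (∀ᶠ x in nhds x0, P.F (cen x) = P.F (x - fun i => (round (x0 i) : ℝ))) ∨
      (∀ᶠ x in nhds x0, ∃ i, P.r < |cen x i|) := by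
  by_cases h : ∀ i, |cen x0 i| < 1 / 2
  · left
    have h1 : ∀ᶠ x : Fin n → ℝ in nhds x0, ∀ i, |x i - ((round (x0 i) : ℤ) : ℝ)| < 1 / 2 := by
      rw [Filter.eventually_all]
      intro i
      have hc : Continuous fun x : Fin n → ℝ => |x i - ((round (x0 i) : ℤ) : ℝ)| := by fun_prop
      exact hc.continuousAt.eventually_lt continuousAt_const (h i)
    filter_upwards [h1] with x hx
    congr 1
    funext i
    simp only [cen, Pi.sub_apply, round_eq_of_abs_lt (hx i)]
  · right
    push Not at h
    obtain ⟨i, hi⟩ := h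
    have hc : Continuous fun x : Fin n → ℝ => |x i - x0 i| := by fun_prop
    have h0 : |x0 i - x0 i| < 1 / 2 - P.r := by
      rw [sub_self, abs_zero]; linarith [P.hr]
    have h0' : ∀ᶠ x : Fin n → ℝ in nhds x0, |x i - x0 i| < 1 / 2 - P.r :=
      (hc.continuousAt (x := x0)).eventually_lt continuousAt_const h0
    filter_upwards [h0'] with x hx
    refine ⟨i, ?_⟩
    have h1 : |x0 i - round (x0 i)| ≤ |x0 i - round (x i)| := round_le _ _
    have h2 : |x0 i - round (x i)| ≤ |x i - x0 i| + |x i - round (x i)| := by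
      calc |x0 i - round (x i)| = |(x i - round (x i)) - (x i - x0 i)| := by ring_nf
        _ ≤ |x i - round (x i)| + |x i - x0 i| := abs_sub _ _
        _ = _ := add_comm _ _
    have h3 : 1 / 2 ≤ |x0 i - round (x0 i)| := hi
    show P.r < |x i - round (x i)|
    linarith

lemma PerData.smooth_cen {n : ℕ} (P : PerData n) : ContDiff ℝ ∞ fun x => P.F (cen x) := by
  rw [contDiff_iff_contDiffAt]
  intro x0
  rcases P.eventually_cen x0 with h | h
  · exact (P.smooth.comp (contDiff_id.sub contDiff_const)).contDiffAt.congr_of_eventuallyEq h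
  · refine (contDiffAt_const (c := P.c)).congr_of_eventuallyEq ?_
    filter_upwards [h] with x hx using P.out _ hx

/-- periodisation -/
noncomputable def per {n : ℕ} (P : PerData n) : Sm n :=
  ⟨fun x => P.F (cen x), P.smooth_cen, fun x i => by simp only [cen_add_single]⟩

@[simp] lemma per_apply {n : ℕ} (P : PerData n) (x : Fin n → ℝ) : (per P).1 x = P.F (cen x) := rfl

/-- the partial derivative of periodisation data -/
noncomputable def PerData.D {n : ℕ} (P : PerData n) (i : Fin n) : PerData n where
  F x := fderiv ℝ P.F x (Pi.single i 1)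
  smooth := (P.smooth.fderiv_right (m := ∞) (by simp)).clm_apply contDiff_const
  c := 0
  r := P.r
  hr := P.hr
  out := by
    rintro x ⟨j, hj⟩
    have hc : Continuous fun y : Fin n → ℝ => |y j| := by fun_prop
    have h1 : P.F =ᶠ[nhds x] fun _ => P.c := by
      filter_upwards [(continuousAt_const (y := P.r)).eventually_lt hc.continuousAt hj] with y hy
      exact P.out y ⟨j, hy⟩
    rw [h1.fderiv_eq]; simp

lemma pD_per {n : ℕ} (P : PerData n) (i : Fin n) : pD i (per P) = per (P.D i) := by
  apply Subtype.ext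
  funext x0
  show fderiv ℝ (fun x => P.F (cen x)) x0 (Pi.single i 1) = fderiv ℝ P.F (cen x0) (Pi.single i 1)
  rcases P.eventually_cen x0 with h | h
  · have h1 : (fun x => P.F (cen x)) =ᶠ[nhds x0] fun x => P.F (x - fun i => (round (x0 i) : ℝ)) := h
    rw [h1.fderiv_eq, fderiv_comp_sub]
    rfl
  · have h1 : (fun x => P.F (cen x)) =ᶠ[nhds x0] fun _ => P.c := by
      filter_upwards [h] with x hx using P.out _ hx
    rw [h1.fderiv_eq]
    have h2 : fderiv ℝ P.F (cen x0) (Pi.single i 1) = 0 := (P.D i).out (cen x0) h.self_of_nhds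
    rw [h2]; simp

/-- the half open cube `[-1/2, 1/2)ⁿ` -/
def cube (n : ℕ) : Set (Fin n → ℝ) := Set.univ.pi fun _ => Set.Ico (-(1 / 2)) (1 / 2)

lemma cen_of_mem_cube {n : ℕ} {x : Fin n → ℝ} (hx : x ∈ cube n) : cen x = x := by
  funext i
  have h : x i ∈ Set.Ico (-(1 / 2 : ℝ)) (1 / 2) := hx i (Set.mem_univ i)
  have h1 : round (x i) = 0 := by
    rw [round_eq, Int.floor_eq_iff]
    constructor <;> push_cast <;> linarith [h.1, h.2]
  simp [cen, h1]

/-- the mean value over any unit cube: here the one centred at the origin -/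
lemma mean_eq_cube {n : ℕ} (f : Sm n) : mean f = ∫ x in cube n, f.1 x := by
  classical
  set b : Module.Basis (Fin n) ℝ (Fin n → ℝ) := Pi.basisFun ℝ (Fin n) with hb
  have hfd := ZSpan.isAddFundamentalDomain' b (volume : Measure (Fin n → ℝ))
  have hdom : ZSpan.fundamentalDomain b = Set.univ.pi fun _ : Fin n => Set.Ico (0:ℝ) 1 := by
    ext x
    simp [ZSpan.mem_fundamentalDomain, hb, Set.mem_pi]
  set v : Fin n → ℝ := fun _ => -(1/2) with hv
  have hfd2 := hfd.vadd_of_comm v
  have hset : v +ᵥ ZSpan.fundamentalDomain b = cube n := by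
    ext x
    rw [Set.mem_vadd_set_iff_neg_vadd_mem, hdom, cube]
    simp only [Set.mem_pi, Set.mem_univ, forall_true_left, vadd_eq_add, Pi.add_apply, Pi.neg_apply,
      hv, Set.mem_Ico]
    constructor
    · intro h i; have := h i; constructor <;> linarith [this.1, this.2]
    · intro h i; have := h i; constructor <;> linarith [this.1, this.2]
  rw [hset] at hfd2
  have hinv0 : ∀ g ∈ Submodule.span ℤ (Set.range b), ∀ x : Fin n → ℝ, f.1 (x + g) = f.1 x := by
    intro g hg
    induction hg using Submodule.span_induction with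
    | mem g hg =>
      obtain ⟨i, rfl⟩ := hg
      intro x
      rw [hb, Pi.basisFun_apply]
      exact f.2.2 x i
    | zero => intro x; rw [add_zero]
    | add g h _ _ hg hh => intro x; rw [← add_assoc, hh, hg]
    | smul k g _ hg =>
      intro x
      let S : AddSubgroup (Fin n → ℝ) :=
        { carrier := {v | ∀ x, f.1 (x + v) = f.1 x}
          zero_mem' := fun x => by rw [add_zero]
          add_mem' := by
            intro v w hv hw x
            rw [← add_assoc, hw, hv]
          neg_mem' := by
            intro v hv x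
            have := hv (x + -v)
            rw [neg_add_cancel_right] at this
            exact this.symm }
      have : k • g ∈ S := S.zsmul_mem (show g ∈ S from hg) k
      exact this x
  have hinv : ∀ (g : (Submodule.span ℤ (Set.range b)).toAddSubgroup) (x : Fin n → ℝ),
      f.1 (g +ᵥ x) = f.1 x := by
    intro g x
    rw [AddSubgroup.vadd_def, vadd_eq_add, add_comm]
    exact hinv0 g.1 g.2 x
  haveI : Countable ↥(Submodule.span ℤ (Set.range b)).toAddSubgroup :=
    inferInstanceAs (Countable ↥(Submodule.span ℤ (Set.range b)))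
  have h1 := hfd.setIntegral_eq hfd2 (f := f.1) hinv
  rw [← h1, hdom]
  show ∫ x in Set.Icc (0 : Fin n → ℝ) 1, f.1 x = _
  refine setIntegral_congr_set ?_
  exact (Measure.univ_pi_Ico_ae_eq_Icc (μ := fun _ : Fin n => (volume : Measure ℝ))
    (f := (0 : Fin n → ℝ)) (g := 1)).symm

lemma mean_per {n : ℕ} (P : PerData n) : mean (per P) = ∫ x in cube n, P.F x := by
  rw [mean_eq_cube]
  refine setIntegral_congr_fun ?_ ?_
  · exact MeasurableSet.univ_pi fun _ => measurableSet_Ico
  · intro x hx
    simp only [per_apply, cen_of_mem_cube hx]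

lemma mean_per_of_zero {n : ℕ} (P : PerData n) (hc : P.c = 0) : mean (per P) = ∫ x, P.F x := by
  rw [mean_per]
  refine setIntegral_eq_integral_of_forall_compl_eq_zero ?_
  intro x hx
  rw [← hc]
  apply P.out
  by_contra hcon
  push Not at hcon
  apply hx
  intro i _
  have h1 := hcon i
  have h2 := abs_le.mp h1
  have := P.hr
  constructor <;> linarith [h2.1, h2.2]

end Pool.Agent.PD4
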