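import Pool.Agent.PD4.Geo.Sub

/-!
# Project PD, geometry: the subbundle `PJ` is Real
-/

open Matrix
open scoped ContDiff ComplexOrder

namespace Pool.Agent.PD4

open Loc

lemma round_le' (x : ℝ) (m : ℤ) : |x - round x| ≤ |x - m| := round_le x m

lemma abs_cen_neg {n : ℕ} (x : Fin n → ℝ) (i : Fin n) : |cen (-x) i| = |cen x i| := by
  have key : ∀ y : ℝ, |(-y) - round (-y)| ≤ |y - round y| := by
    intro y
    have h := round_le (-y) (-(round y))
    have e : |(-y) - ((-(round y) : ℤ) : ℝ)| = |y - round y| := by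
      rw [← abs_neg]; congr 1; push_cast; ring
    rw [e] at h
    exact h
  apply le_antisymm
  · exact key (x i)
  · have := key (-(x i))
    rw [neg_neg] at this
    exact this

lemma cen_neg {n : ℕ} {x : Fin n → ℝ} (h : ∀ i, |cen x i| < 1 / 2) : cen (-x) = -cen x := by
  funext i
  have h1 : |(-x) i - ((-(round (x i)) : ℤ) : ℝ)| < 1 / 2 := by
    have e : |(-x) i - ((-(round (x i)) : ℤ) : ℝ)| = |cen x i| := by
      rw [← abs_neg]; congr 1; simp [cen]; ring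
    rw [e]; exact h i
  have h2 := round_eq_of_abs_lt h1
  simp only [cen, Pi.neg_apply] at h2 ⊢
  rw [h2]
  push_cast
  ring

lemma sq_neg_mulVec (g : Matrix (Fin 8) (Fin 8) ℝ) (y : Fin 8 → ℝ) :
    Loc.sq (g *ᵥ (-y)) = Loc.sq (g *ᵥ y) := by
  rw [Matrix.mulVec_neg]
  simp [Loc.sq]

lemma rad_real {φ : ℝ → ℝ} (hφ : ContDiff ℝ ∞ φ) {b c : ℝ} (hc : ∀ t, b ≤ t → φ t = c)
    {g : Matrix (Fin 8) (Fin 8) ℝ} {r : ℝ} (hr : r < 1 / 2) (hb : Big g b r) :
    Sm.IsReal (rad hφ hc hr hb) := by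
  apply Subtype.ext
  funext x
  show ((φ (Loc.sq (g *ᵥ cen (-x))) : ℝ) : ℂ) = star ((φ (Loc.sq (g *ᵥ cen x)) : ℝ) : ℂ)
  rw [show star ((φ (Loc.sq (g *ᵥ cen x)) : ℝ) : ℂ) = ((φ (Loc.sq (g *ᵥ cen x)) : ℝ) : ℂ) from
    Complex.conj_ofReal _]
  congr 1
  by_cases h : ∀ i, |cen x i| < 1 / 2
  · rw [cen_neg h, sq_neg_mulVec]
  · push Not at h
    obtain ⟨i, hi⟩ := h
    rw [hc _ (hb (cen x) ⟨i, lt_of_lt_of_le hr hi⟩).le,
      hc _ (hb (cen (-x)) ⟨i, by rw [abs_cen_neg]; exact lt_of_lt_of_le hr hi⟩).le]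

section

variable {n : ℕ} {κ κ' : Type*}

lemma MReal.rsmul {f : Sm n} (hf : Sm.IsReal f) {M : Matrix κ κ' (Sm n)} (hM : MReal M) :
    MReal (f • M) := by
  intro i j
  unfold Sm.IsReal
  rw [Matrix.smul_apply, smul_eq_mul, map_mul, star_mul', hf, hM i j]

lemma Sm.isReal_one : Sm.IsReal (1 : Sm n) := by
  unfold Sm.IsReal
  rw [map_one, star_one]

lemma Sm.IsReal.sub {f g : Sm n} (hf : Sm.IsReal f) (hg : Sm.IsReal g) : Sm.IsReal (f - g) := by
  unfold Sm.IsReal at *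
  rw [map_sub, star_sub, hf, hg]

lemma mreal_one [DecidableEq κ] : MReal (1 : Matrix κ κ (Sm n)) := by
  have := mreal_rMat (n := n) (1 : Matrix κ κ ℝ)
  rwa [rMat_one] at this

lemma MReal.inv' [Fintype κ] [DecidableEq κ] {N Y : Matrix κ κ (Sm n)} (hN : MReal N)
    (h1 : N * Y = 1) (h2 : Y * N = 1) : MReal Y := by
  apply real_of_mev
  intro x
  have e1 : mev (-x) Y * mev (-x) N = 1 := by rw [← mev_mul, h2, mev_one]
  have e2 : mev (-x) N * (mev x Y).map (starRingEnd ℂ) = 1 := by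
    rw [mev_of_real hN x, ← map_conj_mul, ← mev_mul, h1, mev_one]
    ext i j
    by_cases h : i = j
    · subst h; simp
    · simp [h]
  calc mev (-x) Y = mev (-x) Y * (mev (-x) N * (mev x Y).map (starRingEnd ℂ)) := by
        rw [e2, Matrix.mul_one]
    _ = _ := by rw [← Matrix.mul_assoc, e1, Matrix.one_mul]

end

variable {ι : Type*} [Fintype ι] [DecidableEq ι] {C : CoreData ι}

namespace Setup

variable (S : Setup C)

lemma t1_real : Sm.IsReal S.t1 := rad_real _ _ _ _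
lemma t3_real : Sm.IsReal S.t3 := rad_real _ _ _ _
lemma t4_real : Sm.IsReal S.t4 := rad_real _ _ _ _
lemma tp_real : Sm.IsReal S.tp := rad_real _ _ _ _

lemma lamS_real : MReal S.lamS := mreal_rMat _

lemma N4_real : MReal S.N4 :=
  ((S.lamS_real.mul C.real).mul S.lamS_real.conjTranspose).add
    (MReal.rsmul (Sm.isReal_one.sub S.t4_real) mreal_one)

lemma Y4_real : MReal S.Y4 := S.N4_real.inv' S.N4_mul_Y4 S.Y4_mul_N4

lemma Q0_real : MReal S.Q0 :=
  (((C.real.mul S.lamS_real.conjTranspose).mul S.Y4_real).mul S.lamS_real).mul C.real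

lemma A_real : MReal S.A :=
  C.Freal.sub (MReal.rsmul S.t3_real ((mreal_one.sub S.Q0_real).mul C.Freal))

lemma N1_real : MReal S.N1 :=
  (S.A_real.conjTranspose.mul S.A_real).add (MReal.rsmul S.t1_real mreal_one)

lemma Y1_real : MReal S.Y1 := S.N1_real.inv' S.N1_mul_Y1 S.Y1_mul_N1

lemma PJ_real : MReal S.PJ :=
  (MReal.rsmul S.tp_real ((S.A_real.mul S.Y1_real).mul S.A_real.conjTranspose)).add
    (MReal.rsmul (Sm.isReal_one.sub S.tp_real) S.Q0_real)

end Setup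

end Pool.Agent.PD4
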