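import Pool.Agent.PD4.Geo.Core

/-!
# Project PD, geometry: cut-offs adapted to the core data
-/

open Matrix
open scoped ContDiff

namespace Pool.Agent.PD4

open Loc

variable {ι : Type*} [Fintype ι] [DecidableEq ι]

/-- lattice points -/
def IsLat (x : Fin 8 → ℝ) : Prop := ∃ m : Fin 8 → ℤ, x = fun i => (m i : ℝ)

lemma isLat_iff_cen {x : Fin 8 → ℝ} : IsLat x ↔ cen x = 0 := by
  constructor
  · rintro ⟨m, rfl⟩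
    funext i
    simp [cen]
  · intro h
    refine ⟨fun i => round (x i), funext fun i => ?_⟩
    have := congrFun h i
    simp only [cen, Pi.zero_apply] at this
    linarith

lemma CoreData.inj' (C : CoreData ι) {x : Fin 8 → ℝ} (hx : ¬ IsLat x) (v : Fin 8 → ℂ)
    (hv : mev x C.F *ᵥ v = 0) : v = 0 :=
  C.inj x (fun m hm => hx ⟨m, hm⟩) v hv

/-- the diagonal scaling `diag(ε, 1, ..., 1)` -/
def dEps (ε : ℝ) : Matrix (Fin 8) (Fin 8) ℝ := Matrix.diagonal fun i => if i = 0 then ε else 1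

/-- the scaled linear map `(2πi)⁻¹ D λ F(x)` -/
noncomputable def CoreData.LF (C : CoreData ι) (ε : ℝ) (x : Fin 8 → ℝ) :
    Matrix (Fin 8) (Fin 8) ℂ :=
  (2 * Real.pi * Complex.I : ℂ)⁻¹ • (cx (dEps ε) * (cx C.lam * mev x C.F))

/-- cut-off functions adapted to the core data -/
structure Setup (C : CoreData ι) where
  T : ℝ
  ρ : ℝ
  hT : 0 < T
  hρ : ρ < 1 / 2
  big : Big C.g T ρ
  p : ℝ → ℝ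
  r : ℝ → ℝ
  a : ℝ
  b : ℝ
  prof : Profile p r a b
  hb : b ≤ T
  φ1 : ℝ → ℝ
  φ3 : ℝ → ℝ
  φ4 : ℝ → ℝ
  s1 : ContDiff ℝ ∞ φ1
  s3 : ContDiff ℝ ∞ φ3
  s4 : ContDiff ℝ ∞ φ4
  z1 : ∀ t, T ≤ t → φ1 t = 0
  z3 : ∀ t, T ≤ t → φ3 t = 0
  z4 : ∀ t, T ≤ t → φ4 t = 0
  nn1 : ∀ t, 0 ≤ φ1 t
  nn3 : ∀ t, 0 ≤ φ3 t
  le3 : ∀ t, φ3 t ≤ 1
  nn4 : ∀ t, 0 ≤ φ4 t
  le4 : ∀ t, φ4 t ≤ 1
  at0 : 0 < φ1 0
  c12 : ∀ t, φ1 t ≠ 0 → p t = 0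
  c23 : ∀ t, p t ≠ 1 → φ3 t = 1
  c34 : ∀ t, φ3 t ≠ 0 → φ4 t = 1
  ε : ℝ
  hε : 0 < ε
  near4 : ∀ y, φ4 (Loc.sq (C.g *ᵥ y)) ≠ 0 → (cx C.lam * mev y C.P * (cx C.lam)ᴴ).det ≠ 0
  near3 : ∀ y, y ≠ 0 → φ3 (Loc.sq (C.g *ᵥ y)) ≠ 0 → ∀ v : Fin 8 → ℂ, v ≠ 0 →
    0 < (star ((cx (octFrame.lin (C.g *ᵥ y) * C.g)) *ᵥ v) ⬝ᵥ (C.LF ε y *ᵥ v)).re

end Pool.Agent.PD4
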