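import Pool.Agent.PD4.Geo.Setup

/-!
# Project PD, geometry: the rank `8` subbundle `PJ` of the rank `11` bundle
-/

open Matrix
open scoped ContDiff ComplexOrder

namespace Pool.Agent.PD4

open Loc

variable {ι : Type*} [Fintype ι] [DecidableEq ι] {C : CoreData ι}

/-! ### general lemmas -/

lemma mev_rsmul {κ κ' : Type*} {n : ℕ} (x : Fin n → ℝ) (f : Sm n) (M : Matrix κ κ' (Sm n)) :
    mev x (f • M) = f.1 x • mev x M := rfl

lemma mev_congr_cen {κ κ' : Type*} {n : ℕ} (x : Fin n → ℝ) (M : Matrix κ κ' (Sm n)) :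
    mev x M = mev (cen x) M := by
  ext i j
  have h := Sm.per (M i j) (fun k => round (x k)) (cen x)
  have e : (cen x + fun k => ((round (x k) : ℤ) : ℝ)) = x := by
    funext k; simp [cen]
  rw [e] at h
  exact h

lemma mulVec_eq_zero_of_posDef' {κ : Type*} [Fintype κ] [DecidableEq κ] {M : Matrix κ κ ℂ}
    (hM : M.PosDef) : IsUnit M := hM.isUnit

namespace Setup

variable (S : Setup C)

/-- the argument of the radial functions -/
noncomputable def tau (_S : Setup C) (x : Fin 8 → ℝ) : ℝ := Loc.sq (C.g *ᵥ cen x)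

noncomputable def t1 : Sm 8 := rad S.s1 S.z1 S.hρ S.big
noncomputable def t3 : Sm 8 := rad S.s3 S.z3 S.hρ S.big
noncomputable def t4 : Sm 8 := rad S.s4 S.z4 S.hρ S.big
noncomputable def tp : Sm 8 :=
  rad S.prof.ps (fun t ht => S.prof.phi t (S.hb.trans ht)) S.hρ S.big

lemma t1_apply (x : Fin 8 → ℝ) : S.t1.1 x = ((S.φ1 (S.tau x) : ℝ) : ℂ) := rfl
lemma t3_apply (x : Fin 8 → ℝ) : S.t3.1 x = ((S.φ3 (S.tau x) : ℝ) : ℂ) := rfl
lemma t4_apply (x : Fin 8 → ℝ) : S.t4.1 x = ((S.φ4 (S.tau x) : ℝ) : ℂ) := rfl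
lemma tp_apply (x : Fin 8 → ℝ) : S.tp.1 x = ((S.p (S.tau x) : ℝ) : ℂ) := rfl

lemma tau_of_isLat {x : Fin 8 → ℝ} (hx : IsLat x) : S.tau x = 0 := by
  rw [tau, isLat_iff_cen.mp hx]
  simp [Loc.sq]

/-- `λ` over `Sm 8` -/
noncomputable def lamS (_S : Setup C) : Matrix (Fin 8) ι (Sm 8) := rMat C.lam

/-- `λ P λ* + (1 - t4)` -/
noncomputable def N4 : Matrix (Fin 8) (Fin 8) (Sm 8) :=
  S.lamS * C.P * S.lamSᴴ + (1 - S.t4) • (1 : Matrix (Fin 8) (Fin 8) (Sm 8))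

lemma mev_N4 (x : Fin 8 → ℝ) : mev x S.N4 = cx C.lam * mev x C.P * (cx C.lam)ᴴ +
    ((1 - S.φ4 (S.tau x) : ℝ) : ℂ) • (1 : Matrix (Fin 8) (Fin 8) ℂ) := by
  rw [N4, mev_add, mev_rsmul, mev_one, mev_mul, mev_mul, mev_conjTranspose]
  congr 2
  show (1 - S.t4 : Sm 8).1 x = _
  have : (1 - S.t4 : Sm 8).1 x = 1 - S.t4.1 x := rfl
  rw [this, t4_apply]
  push_cast
  rfl

lemma lamPlam_posSemidef (x : Fin 8 → ℝ) :
    (cx C.lam * mev x C.P * (cx C.lam)ᴴ).PosSemidef := by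
  have h : cx C.lam * mev x C.P * (cx C.lam)ᴴ =
      (cx C.lam * mev x C.P) * (cx C.lam * mev x C.P)ᴴ := by
    rw [Matrix.conjTranspose_mul, ← mev_conjTranspose, C.herm, Matrix.mul_assoc, Matrix.mul_assoc,
      ← Matrix.mul_assoc (mev x C.P) (mev x C.P), ← mev_mul, C.idem]
  rw [h]
  exact Matrix.posSemidef_self_mul_conjTranspose _

lemma N4_unit : IsUnit S.N4 := by
  apply isUnit_of_pointwise
  intro x
  rw [mev_N4]
  by_cases h : S.φ4 (S.tau x) = 0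
  · apply Matrix.PosDef.isUnit
    apply Matrix.PosDef.posSemidef_add (lamPlam_posSemidef x)
    rw [h, sub_zero, Complex.ofReal_one, one_smul]
    exact Matrix.PosDef.one
  · by_cases h1 : S.φ4 (S.tau x) = 1
    · rw [h1, sub_self, Complex.ofReal_zero, zero_smul, add_zero,
        Matrix.isUnit_iff_isUnit_det, isUnit_iff_ne_zero, mev_congr_cen x C.P]
      exact S.near4 (cen x) h
    · have h2 : 0 < 1 - S.φ4 (S.tau x) := by
        have := S.le4 (S.tau x)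
        exact sub_pos.mpr (lt_of_le_of_ne this h1)
      apply Matrix.PosDef.isUnit
      apply Matrix.PosDef.posSemidef_add (lamPlam_posSemidef x)
      exact Matrix.PosDef.smul Matrix.PosDef.one (by exact_mod_cast h2)

/-- inverse of `N4` -/
noncomputable def Y4 : Matrix (Fin 8) (Fin 8) (Sm 8) := ((S.N4_unit.unit⁻¹ :
  (Matrix (Fin 8) (Fin 8) (Sm 8))ˣ) : Matrix (Fin 8) (Fin 8) (Sm 8))

lemma N4_mul_Y4 : S.N4 * S.Y4 = 1 := S.N4_unit.mul_val_inv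
lemma Y4_mul_N4 : S.Y4 * S.N4 = 1 := S.N4_unit.val_inv_mul

/-- projection onto `P λ*`, near the lattice -/
noncomputable def Q0 : Matrix ι ι (Sm 8) := C.P * S.lamSᴴ * S.Y4 * S.lamS * C.P

/-- the modified map -/
noncomputable def A : Matrix ι (Fin 8) (Sm 8) := C.F - S.t3 • ((1 - S.Q0) * C.F)

/-- `A* A + t1` -/
noncomputable def N1 : Matrix (Fin 8) (Fin 8) (Sm 8) :=
  (S.A)ᴴ * S.A + S.t1 • (1 : Matrix (Fin 8) (Fin 8) (Sm 8))

end Setup

/-! ### complex matrices -/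

section cplx

variable {κ : Type*} [Fintype κ] [DecidableEq κ]

/-- two hermitian idempotents, one below the other, with equal traces are equal -/
lemma proj_eq_of_trace {Q R : Matrix ι ι ℂ} (hQ : Q * Q = Q) (hQh : Qᴴ = Q) (hR : R * R = R)
    (hRh : Rᴴ = R) (h : Q * R = R) (ht : Q.trace = R.trace) : Q = R := by
  have h' : R * Q = R := by
    have := congrArg Matrix.conjTranspose h
    rwa [Matrix.conjTranspose_mul, hQh, hRh] at this
  have e : (Q - R)ᴴ * (Q - R) = Q - R := by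
    rw [Matrix.conjTranspose_sub, hQh, hRh, Matrix.sub_mul, Matrix.mul_sub, Matrix.mul_sub, hQ, h,
      h', hR]
    abel
  have h0 : ((Q - R)ᴴ * (Q - R)).trace = 0 := by rw [e, Matrix.trace_sub, ht, sub_self]
  exact sub_eq_zero.mp (Matrix.trace_conjTranspose_mul_self_eq_zero_iff.mp h0)

/-- `P l* (l P l*)⁻¹ l P` -/
lemma qproj {P : Matrix ι ι ℂ} (hP : P * P = P) (hPh : Pᴴ = P) {l : Matrix κ ι ℂ}
    {Y : Matrix κ κ ℂ} (h1 : (l * P * lᴴ) * Y = 1) (h2 : Y * (l * P * lᴴ) = 1) :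
    (P * lᴴ * Y * l * P) * (P * lᴴ * Y * l * P) = P * lᴴ * Y * l * P ∧
    (P * lᴴ * Y * l * P)ᴴ = P * lᴴ * Y * l * P ∧ l * (P * lᴴ * Y * l * P) = l * P ∧
    P * (P * lᴴ * Y * l * P) = P * lᴴ * Y * l * P ∧
    (P * lᴴ * Y * l * P) * P = P * lᴴ * Y * l * P ∧
    (P * lᴴ * Y * l * P).trace = Fintype.card κ := by
  have hK : (l * P * lᴴ)ᴴ = l * P * lᴴ := by
    rw [Matrix.conjTranspose_mul, Matrix.conjTranspose_mul, Matrix.conjTranspose_conjTranspose,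
      hPh, Matrix.mul_assoc]
  have hY : Yᴴ = Y := by
    have h3 : Yᴴ * (l * P * lᴴ) = 1 := by
      have := congrArg Matrix.conjTranspose h1
      rwa [Matrix.conjTranspose_mul, hK, Matrix.conjTranspose_one] at this
    calc Yᴴ = Yᴴ * ((l * P * lᴴ) * Y) := by rw [h1, Matrix.mul_one]
      _ = Y := by rw [← Matrix.mul_assoc, h3, Matrix.one_mul]
  refine ⟨?_, ?_, ?_, ?_, ?_, ?_⟩
  · calc (P * lᴴ * Y * l * P) * (P * lᴴ * Y * l * P)
        = P * lᴴ * Y * (l * (P * P) * lᴴ * Y) * l * P := by simp only [Matrix.mul_assoc]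
      _ = P * lᴴ * Y * l * P := by rw [hP, h1, Matrix.mul_one]
  · simp only [Matrix.conjTranspose_mul, Matrix.conjTranspose_conjTranspose, hY, hPh,
      Matrix.mul_assoc]
  · calc l * (P * lᴴ * Y * l * P) = (l * P * lᴴ * Y) * l * P := by simp only [Matrix.mul_assoc]
      _ = l * P := by rw [h1, Matrix.one_mul]
  · calc P * (P * lᴴ * Y * l * P) = (P * P) * lᴴ * Y * l * P := by simp only [Matrix.mul_assoc]
      _ = _ := by rw [hP]
  · calc (P * lᴴ * Y * l * P) * P = P * lᴴ * Y * l * (P * P) := by simp only [Matrix.mul_assoc]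
      _ = _ := by rw [hP]
  · calc (P * lᴴ * Y * l * P).trace = ((P * lᴴ) * (Y * l * P)).trace := by
          simp only [Matrix.mul_assoc]
      _ = ((Y * l * P) * (P * lᴴ)).trace := Matrix.trace_mul_comm _ _
      _ = (Y * (l * (P * P) * lᴴ)).trace := by simp only [Matrix.mul_assoc]
      _ = _ := by rw [hP, h2, Matrix.trace_one]

/-- `A (A* A)⁻¹ A*` -/
lemma rproj {A : Matrix ι κ ℂ} {Y : Matrix κ κ ℂ} (h1 : (Aᴴ * A) * Y = 1)
    (h2 : Y * (Aᴴ * A) = 1) :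
    (A * Y * Aᴴ) * (A * Y * Aᴴ) = A * Y * Aᴴ ∧ (A * Y * Aᴴ)ᴴ = A * Y * Aᴴ ∧
    (A * Y * Aᴴ) * A = A ∧ (A * Y * Aᴴ).trace = Fintype.card κ := by
  have hK : (Aᴴ * A)ᴴ = Aᴴ * A := by
    rw [Matrix.conjTranspose_mul, Matrix.conjTranspose_conjTranspose]
  have hY : Yᴴ = Y := by
    have h3 : Yᴴ * (Aᴴ * A) = 1 := by
      have := congrArg Matrix.conjTranspose h1
      rwa [Matrix.conjTranspose_mul, hK, Matrix.conjTranspose_one] at this
    calc Yᴴ = Yᴴ * ((Aᴴ * A) * Y) := by rw [h1, Matrix.mul_one]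
      _ = Y := by rw [← Matrix.mul_assoc, h3, Matrix.one_mul]
  refine ⟨?_, ?_, ?_, ?_⟩
  · calc (A * Y * Aᴴ) * (A * Y * Aᴴ) = A * (Y * (Aᴴ * A)) * Y * Aᴴ := by
          simp only [Matrix.mul_assoc]
      _ = _ := by rw [h2, Matrix.mul_one]
  · simp only [Matrix.conjTranspose_mul, Matrix.conjTranspose_conjTranspose, hY,
      Matrix.mul_assoc]
  · calc (A * Y * Aᴴ) * A = A * (Y * (Aᴴ * A)) := by simp only [Matrix.mul_assoc]
      _ = A := by rw [h2, Matrix.mul_one]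
  · calc (A * Y * Aᴴ).trace = (A * (Y * Aᴴ)).trace := by rw [Matrix.mul_assoc]
      _ = ((Y * Aᴴ) * A).trace := Matrix.trace_mul_comm _ _
      _ = (Y * (Aᴴ * A)).trace := by rw [Matrix.mul_assoc]
      _ = _ := by rw [h2, Matrix.trace_one]

end cplx

namespace Setup

variable (S : Setup C)

lemma mev_PP (x : Fin 8 → ℝ) : mev x C.P * mev x C.P = mev x C.P := by rw [← mev_mul, C.idem]
lemma mev_Ph (x : Fin 8 → ℝ) : (mev x C.P)ᴴ = mev x C.P := by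
  rw [← mev_conjTranspose, C.herm]
lemma mev_PF (x : Fin 8 → ℝ) : mev x C.P * mev x C.F = mev x C.F := by rw [← mev_mul, C.PF]

lemma mev_Q0 (x : Fin 8 → ℝ) : mev x S.Q0 =
    mev x C.P * (cx C.lam)ᴴ * mev x S.Y4 * cx C.lam * mev x C.P := by
  rw [Q0, mev_mul, mev_mul, mev_mul, mev_mul, mev_conjTranspose]
  rfl

/-- properties of `Q0` at a point where `φ4 = 1` -/
lemma Q0_props {x : Fin 8 → ℝ} (h : S.φ4 (S.tau x) = 1) :
    mev x S.Q0 * mev x S.Q0 = mev x S.Q0 ∧ (mev x S.Q0)ᴴ = mev x S.Q0 ∧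
    cx C.lam * mev x S.Q0 = cx C.lam * mev x C.P ∧ mev x C.P * mev x S.Q0 = mev x S.Q0 ∧
    mev x S.Q0 * mev x C.P = mev x S.Q0 ∧ (mev x S.Q0).trace = 8 := by
  have hN : mev x S.N4 = cx C.lam * mev x C.P * (cx C.lam)ᴴ := by
    rw [mev_N4, h, sub_self, Complex.ofReal_zero, zero_smul, add_zero]
  have h1 : (cx C.lam * mev x C.P * (cx C.lam)ᴴ) * mev x S.Y4 = 1 := by
    rw [← hN, ← mev_mul, N4_mul_Y4, mev_one]
  have h2 : mev x S.Y4 * (cx C.lam * mev x C.P * (cx C.lam)ᴴ) = 1 := by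
    rw [← hN, ← mev_mul, Y4_mul_N4, mev_one]
  have := qproj (mev_PP x) (mev_Ph x) h1 h2
  rw [mev_Q0]
  simpa using this

lemma mev_A (x : Fin 8 → ℝ) : mev x S.A =
    mev x C.F - ((S.φ3 (S.tau x) : ℝ) : ℂ) • ((1 - mev x S.Q0) * mev x C.F) := by
  rw [A, mev_sub, mev_rsmul, mev_mul, mev_sub, mev_one]
  rfl

/-- the scaled derivative map is injective near the lattice -/
lemma lamF_inj {x : Fin 8 → ℝ} (hx : ¬ IsLat x) (h3 : S.φ3 (S.tau x) ≠ 0) {v : Fin 8 → ℂ}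
    (hv : (cx C.lam * mev x C.F) *ᵥ v = 0) : v = 0 := by
  by_contra hne
  have hy : cen x ≠ 0 := fun h => hx (isLat_iff_cen.mpr h)
  have h := S.near3 (cen x) hy h3 v hne
  have h0 : C.LF S.ε (cen x) *ᵥ v = 0 := by
    rw [CoreData.LF, Matrix.smul_mulVec, ← Matrix.mulVec_mulVec, ← mev_congr_cen x C.F, hv,
      Matrix.mulVec_zero, smul_zero]
  rw [h0, dotProduct_zero] at h
  simp at h

lemma A_inj {x : Fin 8 → ℝ} (hx : ¬ IsLat x) {v : Fin 8 → ℂ} (hv : mev x S.A *ᵥ v = 0) :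
    v = 0 := by
  by_cases h3 : S.φ3 (S.tau x) = 0
  · apply C.inj' hx
    rw [mev_A, h3, Complex.ofReal_zero, zero_smul, sub_zero] at hv
    exact hv
  · have h4 := S.c34 _ h3
    obtain ⟨hQ, -, hlQ, -, -, -⟩ := S.Q0_props h4
    apply S.lamF_inj hx h3
    have e : mev x S.Q0 * mev x S.A = mev x S.Q0 * mev x C.F := by
      rw [mev_A, Matrix.mul_sub, Matrix.mul_smul, ← Matrix.mul_assoc, Matrix.mul_sub,
        Matrix.mul_one, hQ, sub_self, Matrix.zero_mul, smul_zero, sub_zero]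
    have e2 : cx C.lam * mev x C.F = cx C.lam * (mev x S.Q0 * mev x S.A) := by
      rw [e, ← Matrix.mul_assoc, hlQ, Matrix.mul_assoc, mev_PF]
    rw [e2, ← Matrix.mulVec_mulVec, ← Matrix.mulVec_mulVec, hv, Matrix.mulVec_zero,
      Matrix.mulVec_zero]

lemma mev_N1 (x : Fin 8 → ℝ) : mev x S.N1 = (mev x S.A)ᴴ * mev x S.A +
    ((S.φ1 (S.tau x) : ℝ) : ℂ) • (1 : Matrix (Fin 8) (Fin 8) ℂ) := by
  rw [N1, mev_add, mev_rsmul, mev_one, mev_mul, mev_conjTranspose]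
  rfl

lemma N1_unit : IsUnit S.N1 := by
  apply isUnit_of_pointwise
  intro x
  rw [mev_N1]
  apply Matrix.PosDef.isUnit
  by_cases hx : IsLat x
  · apply Matrix.PosDef.posSemidef_add (Matrix.posSemidef_conjTranspose_mul_self _)
    rw [S.tau_of_isLat hx]
    exact Matrix.PosDef.smul Matrix.PosDef.one (by exact_mod_cast S.at0)
  · apply Matrix.PosDef.add_posSemidef
    · apply Matrix.PosDef.conjTranspose_mul_self
      intro v w hvw
      have : mev x S.A *ᵥ (v - w) = 0 := by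
        rw [Matrix.mulVec_sub]; exact sub_eq_zero.mpr hvw
      exact sub_eq_zero.mp (S.A_inj hx this)
    · exact Matrix.PosSemidef.smul Matrix.PosSemidef.one (by exact_mod_cast S.nn1 _)

/-- inverse of `N1` -/
noncomputable def Y1 : Matrix (Fin 8) (Fin 8) (Sm 8) := ((S.N1_unit.unit⁻¹ :
  (Matrix (Fin 8) (Fin 8) (Sm 8))ˣ) : Matrix (Fin 8) (Fin 8) (Sm 8))

lemma N1_mul_Y1 : S.N1 * S.Y1 = 1 := S.N1_unit.mul_val_inv
lemma Y1_mul_N1 : S.Y1 * S.N1 = 1 := S.N1_unit.val_inv_mul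

/-- the rank `8` subbundle -/
noncomputable def PJ : Matrix ι ι (Sm 8) :=
  S.tp • (S.A * S.Y1 * (S.A)ᴴ) + (1 - S.tp) • S.Q0

lemma mev_PJ (x : Fin 8 → ℝ) : mev x S.PJ =
    ((S.p (S.tau x) : ℝ) : ℂ) • (mev x S.A * mev x S.Y1 * (mev x S.A)ᴴ) +
      (1 - ((S.p (S.tau x) : ℝ) : ℂ)) • mev x S.Q0 := by
  rw [PJ, mev_add, mev_rsmul, mev_rsmul, mev_mul, mev_mul, mev_conjTranspose]
  rfl

lemma not_isLat_of_p {x : Fin 8 → ℝ} (h : S.p (S.tau x) ≠ 0) : ¬ IsLat x := by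
  intro hx
  rw [S.tau_of_isLat hx] at h
  exact h (S.prof.plo 0 S.prof.ha.le)

lemma Y1_props {x : Fin 8 → ℝ} (h : S.p (S.tau x) ≠ 0) :
    ((mev x S.A)ᴴ * mev x S.A) * mev x S.Y1 = 1 ∧ mev x S.Y1 * ((mev x S.A)ᴴ * mev x S.A) = 1 := by
  have h1 : S.φ1 (S.tau x) = 0 := by
    by_contra hc; exact h (S.c12 _ hc)
  have hN : mev x S.N1 = (mev x S.A)ᴴ * mev x S.A := by
    rw [mev_N1, h1, Complex.ofReal_zero, zero_smul, add_zero]
  rw [← hN, ← mev_mul, ← mev_mul, N1_mul_Y1, Y1_mul_N1, mev_one]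
  exact ⟨rfl, rfl⟩

/-- near the lattice `A = Q0 F` -/
lemma A_near {x : Fin 8 → ℝ} (h : S.p (S.tau x) ≠ 1) : mev x S.A = mev x S.Q0 * mev x C.F := by
  rw [mev_A, S.c23 _ h, Complex.ofReal_one, one_smul, Matrix.sub_mul, Matrix.one_mul]
  abel

lemma phi4_near {x : Fin 8 → ℝ} (h : S.p (S.tau x) ≠ 1) : S.φ4 (S.tau x) = 1 :=
  S.c34 _ (by rw [S.c23 _ h]; exact one_ne_zero)

/-- near the lattice `PJ = Q0` -/
lemma PJ_near {x : Fin 8 → ℝ} (h : S.p (S.tau x) ≠ 1) : mev x S.PJ = mev x S.Q0 := by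
  by_cases h0 : S.p (S.tau x) = 0
  · rw [mev_PJ, h0]; simp
  · obtain ⟨hQ, hQh, -, -, -, hQt⟩ := S.Q0_props (S.phi4_near h)
    obtain ⟨h1, h2⟩ := S.Y1_props h0
    obtain ⟨hR, hRh, -, hRt⟩ := rproj h1 h2
    have e : mev x S.Q0 = mev x S.A * mev x S.Y1 * (mev x S.A)ᴴ := by
      refine proj_eq_of_trace hQ hQh hR hRh ?_ ?_
      · rw [← Matrix.mul_assoc, ← Matrix.mul_assoc]
        congr 2
        rw [S.A_near h, ← Matrix.mul_assoc, hQ]
      · rw [hQt, hRt]; simp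
    rw [mev_PJ, ← e, ← add_smul]
    simp

/-- away from the lattice `PJ = A (A* A)⁻¹ A*` -/
lemma PJ_far {x : Fin 8 → ℝ} (h : S.p (S.tau x) ≠ 0) :
    mev x S.PJ = mev x S.A * mev x S.Y1 * (mev x S.A)ᴴ := by
  by_cases h1 : S.p (S.tau x) = 1
  · rw [mev_PJ, h1]; simp
  · obtain ⟨hQ, hQh, -, -, -, hQt⟩ := S.Q0_props (S.phi4_near h1)
    obtain ⟨h1', h2⟩ := S.Y1_props h
    obtain ⟨hR, hRh, -, hRt⟩ := rproj h1' h2
    have e : mev x S.Q0 = mev x S.A * mev x S.Y1 * (mev x S.A)ᴴ := by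
      refine proj_eq_of_trace hQ hQh hR hRh ?_ ?_
      · rw [← Matrix.mul_assoc, ← Matrix.mul_assoc]
        congr 2
        rw [S.A_near h1, ← Matrix.mul_assoc, hQ]
      · rw [hQt, hRt]; simp
    rw [S.PJ_near h1, e]

lemma mev_P_A (x : Fin 8 → ℝ) : mev x C.P * mev x S.A = mev x S.A := by
  have hPQ : mev x C.P * mev x S.Q0 = mev x S.Q0 := by
    rw [mev_Q0]
    simp only [← Matrix.mul_assoc, mev_PP]
  rw [mev_A, Matrix.mul_sub, Matrix.mul_smul, ← Matrix.mul_assoc, mev_PF, Matrix.mul_sub,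
    Matrix.mul_one, hPQ, Matrix.sub_mul, Matrix.sub_mul, mev_PF, Matrix.one_mul]

/-- pointwise properties of `PJ` -/
lemma PJ_props (x : Fin 8 → ℝ) :
    mev x S.PJ * mev x S.PJ = mev x S.PJ ∧ (mev x S.PJ)ᴴ = mev x S.PJ ∧
    mev x C.P * mev x S.PJ = mev x S.PJ ∧ mev x S.PJ * mev x S.A = mev x S.A ∧
    (mev x S.PJ).trace = 8 := by
  by_cases h : S.p (S.tau x) = 1
  · have h0 : S.p (S.tau x) ≠ 0 := by rw [h]; exact one_ne_zero
    obtain ⟨h1, h2⟩ := S.Y1_props h0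
    obtain ⟨hR, hRh, hRA, hRt⟩ := rproj h1 h2
    rw [S.PJ_far h0]
    refine ⟨hR, hRh, ?_, hRA, by rw [hRt]; simp⟩
    rw [← Matrix.mul_assoc, ← Matrix.mul_assoc, mev_P_A]
  · obtain ⟨hQ, hQh, -, hPQ, -, hQt⟩ := S.Q0_props (S.phi4_near h)
    rw [S.PJ_near h]
    refine ⟨hQ, hQh, hPQ, ?_, hQt⟩
    rw [S.A_near h, ← Matrix.mul_assoc, hQ]

lemma PJ_idem : S.PJ * S.PJ = S.PJ :=
  mev_injective fun x => by rw [mev_mul]; exact (S.PJ_props x).1
lemma PJ_herm : (S.PJ)ᴴ = S.PJ :=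
  mev_injective fun x => by rw [mev_conjTranspose]; exact (S.PJ_props x).2.1
lemma P_PJ : C.P * S.PJ = S.PJ :=
  mev_injective fun x => by rw [mev_mul]; exact (S.PJ_props x).2.2.1
lemma PJ_A : S.PJ * S.A = S.A :=
  mev_injective fun x => by rw [mev_mul]; exact (S.PJ_props x).2.2.2.1
lemma PJ_trace (x : Fin 8 → ℝ) : (mev x S.PJ).trace = 8 := (S.PJ_props x).2.2.2.2
lemma PJ_P : S.PJ * C.P = S.PJ := by
  have := congrArg Matrix.conjTranspose S.P_PJ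
  rwa [Matrix.conjTranspose_mul, S.PJ_herm, C.herm] at this

end Setup

end Pool.Agent.PD4
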